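import Pool.Agent.TH679.LW.Rows

/-!
The dynamic program for a linear grammar
-/

set_option autoImplicit false
set_option linter.unusedSectionVars false

namespace Pool.Agent.TH679.LW

open Finset
open Pool.Agent.H564R3.PW (Instr runs exec)
open Pool.Agent.H822R5.LN (LinGrammar)
open Pool.Agent.TH679.CF (wordSum)

/-! ### idempotent addition -/

section Idem

variable {R : Type} [CommSemiring R]

/-- `b` absorbs `a` -/
def Abs (a b : R) : Prop := a + b = b

theorem Abs.antisymm {a b : R} (h1 : Abs a b) (h2 : Abs b a) : a = b := by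
  unfold Abs at *
  rw [← h2, add_comm b a, h1]

theorem Abs.trans {a b c : R} (h1 : Abs a b) (h2 : Abs b c) : Abs a c := by
  unfold Abs at *
  rw [← h2, ← add_assoc, h1]

theorem Abs.mul {a b : R} (h : Abs a b) (c : R) : Abs (c * a) (c * b) := by
  unfold Abs at *
  rw [← mul_add, h]

theorem abs_zero (b : R) : Abs 0 b := zero_add b

theorem abs_sum {α : Type} {s : Finset α} {f : α → R} {b : R} (h : ∀ x ∈ s, Abs (f x) b) :
    Abs (∑ x ∈ s, f x) b := by
  classical
  induction s using Finset.induction_on with
  | empty => exact abs_zero b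
  | insert a s ha ih =>
    rw [sum_insert ha]
    unfold Abs
    have h1 := ih fun x hx => h x (mem_insert_of_mem hx)
    unfold Abs at h1
    rw [add_assoc, h1]
    exact h a (mem_insert_self _ _)

theorem abs_of_mem (hidem : ∀ a : R, a + a = a) {α : Type} {s : Finset α} {f : α → R} {x : α}
    (hx : x ∈ s) : Abs (f x) (∑ x ∈ s, f x) := by
  classical
  unfold Abs
  rw [← add_sum_erase s f hx, ← add_assoc, hidem]

theorem abs_lsum {α : Type} {f : α → R} {b : R} : ∀ {l : List α}, (∀ x ∈ l, Abs (f x) b) →
    Abs (l.map f).sum b := by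
  intro l
  induction l with
  | nil => intro _; exact abs_zero b
  | cons a l ih =>
    intro h
    rw [List.map_cons, List.sum_cons]
    unfold Abs
    have h1 := ih fun x hx => h x (List.mem_cons_of_mem _ hx)
    unfold Abs at h1
    rw [add_assoc, h1]
    exact h a List.mem_cons_self

theorem abs_of_lmem (hidem : ∀ a : R, a + a = a) {α : Type} {f : α → R} {x : α} :
    ∀ {l : List α}, x ∈ l → Abs (f x) (l.map f).sum := by
  intro l
  induction l with
  | nil => intro h; exact absurd h List.not_mem_nil
  | cons a l ih =>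
    intro h
    rw [List.map_cons, List.sum_cons]
    unfold Abs
    rcases List.mem_cons.1 h with rfl | h
    · rw [← add_assoc, hidem]
    · have h1 := ih h
      unfold Abs at h1
      rw [add_left_comm, h1]

end Idem

/-! ### words -/

section Words

variable {Γ R : Type} [CommSemiring R] {n : ℕ}

/-- the position `j`, modulo `n` -/
def ix (hn : 0 < n) (j : ℕ) : Fin n := ⟨j % n, Nat.mod_lt _ hn⟩

/-- the variables of the word `x`, starting at the position `j` -/
def loads (hn : 0 < n) : ℕ → List Γ → List (Fin n × Γ)
  | _, [] => []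
  | j, a :: x => (ix hn j, a) :: loads hn (j + 1) x

theorem loads_length (hn : 0 < n) : ∀ (x : List Γ) (j : ℕ), (loads hn j x).length = x.length := by
  intro x
  induction x with
  | nil => intro j; rfl
  | cons a x ih => intro j; rw [loads, List.length_cons, List.length_cons, ih]

theorem loads_append (hn : 0 < n) : ∀ (x y : List Γ) (j : ℕ),
    loads hn j (x ++ y) = loads hn j x ++ loads hn (j + x.length) y := by
  intro x
  induction x with
  | nil => intro y j; rfl
  | cons a x ih =>
    intro y j
    rw [List.cons_append, loads, ih, loads, List.cons_append, List.length_cons]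
    congr 3
    ring

theorem loads_congr (hn : 0 < n) : ∀ (x : List Γ) (j j' : ℕ), j % n = j' % n →
    loads hn j x = loads hn j' x := by
  intro x
  induction x with
  | nil => intro j j' _; rfl
  | cons a x ih =>
    intro j j' h
    have h1 : ix hn j = ix hn j' := Fin.ext h
    have h2 : (j + 1) % n = (j' + 1) % n := by
      rw [Nat.add_mod j, Nat.add_mod j', h]
    rw [loads, loads, h1, ih _ _ h2]

/-- the product of the weights of the letters of a word which starts at the position `j` -/
def wt (hn : 0 < n) (w : Fin n × Γ → R) (j : ℕ) (x : List Γ) : R := ((loads hn j x).map w).prod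

theorem wt_append (hn : 0 < n) (w : Fin n × Γ → R) (j : ℕ) (x y : List Γ) :
    wt hn w j (x ++ y) = wt hn w j x * wt hn w (j + x.length) y := by
  unfold wt
  rw [loads_append, List.map_append, List.prod_append]

theorem wt_congr (hn : 0 < n) (w : Fin n × Γ → R) {j j' : ℕ} (h : j % n = j' % n) (x : List Γ) :
    wt hn w j x = wt hn w j' x := by
  unfold wt
  rw [loads_congr hn x j j' h]

theorem wt_ofFn (hn : 0 < n) (w : Fin n × Γ → R) : ∀ (l j : ℕ) (x : Fin l → Γ),
    wt hn w j (List.ofFn x) = ∏ t : Fin l, w (ix hn (j + t.val), x t) := by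
  intro l
  induction l with
  | zero =>
    intro j x
    rw [List.ofFn_zero]
    rfl
  | succ l ih =>
    intro j x
    have e : List.ofFn x = [x 0] ++ List.ofFn (fun i : Fin l => x i.succ) := List.ofFn_succ ..
    rw [e, wt_append, ih, Fin.prod_univ_succ]
    congr 1
    · simp [wt, loads]
    · refine prod_congr rfl fun t _ => ?_
      have e2 : j + [x 0].length + t.val = j + (t.succ : Fin (l + 1)).val := by
        simp
        ring
      rw [e2]

end Words

/-! ### derivations -/

section Gram

variable {Γ : Type} (G : LinGrammar Γ)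

/-- derivations with the rules `A → B` -/
def Un (A B : G.NT) : Prop := Relation.ReflTransGen (fun A B => (A, [], B, []) ∈ G.inner) A B

theorem gen_of_un {A B : G.NT} (h : Un G A B) {x : List Γ} (hx : G.Gen B x) : G.Gen A x := by
  unfold Un at h
  induction h using Relation.ReflTransGen.head_induction_on with
  | refl => exact hx
  | head h1 _ ih =>
    have := LinGrammar.Gen.inner (G := G) _ _ [] [] x h1 ih
    rwa [List.append_nil] at this

theorem gen_split {A : G.NT} {x : List Γ} (h : G.Gen A x) : ∃ A', Un G A A' ∧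
    ((A', x) ∈ G.last ∨ ∃ u B v y, (A', u, B, v) ∈ G.inner ∧ 1 ≤ u.length + v.length ∧
      G.Gen B y ∧ x = u ++ y ++ v) := by
  induction h with
  | last A u h => exact ⟨A, Relation.ReflTransGen.refl, Or.inl h⟩
  | inner A B u v y h hy ih =>
    by_cases h1 : 1 ≤ u.length + v.length
    · exact ⟨A, Relation.ReflTransGen.refl, Or.inr ⟨u, B, v, y, h, h1, hy, rfl⟩⟩
    · have hu : u = [] := List.length_eq_zero_iff.1 (by omega)
      have hv : v = [] := List.length_eq_zero_iff.1 (by omega)
      subst hu
      subst hv
      obtain ⟨A', h2, h3⟩ := ih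
      refine ⟨A', Relation.ReflTransGen.head h h2, ?_⟩
      rw [List.nil_append, List.append_nil]
      exact h3

open Classical in
/-- the words of length `l` which can be derived from `A` -/
noncomputable def W [Fintype Γ] (A : G.NT) (l : ℕ) : Finset (List Γ) :=
  (univ.filter (fun x : Fin l → Γ => G.Gen A (List.ofFn x))).image List.ofFn

theorem mem_W [Fintype Γ] {A : G.NT} {l : ℕ} {x : List Γ} :
    x ∈ W G A l ↔ x.length = l ∧ G.Gen A x := by
  classical
  unfold W
  simp only [mem_image, mem_filter, mem_univ, true_and]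
  constructor
  · rintro ⟨f, hf, rfl⟩
    exact ⟨List.length_ofFn, hf⟩
  · rintro ⟨rfl, h⟩
    exact ⟨fun i => x.get i, by rw [List.ofFn_get]; exact h, List.ofFn_get x⟩

end Gram

section Prog

variable {Γ : Type} [Fintype Γ] (G : LinGrammar Γ) {n : ℕ} (hn : 0 < n)
variable {R : Type} [CommSemiring R]

/-- the sum for the words of length `l` from the position `j` -/
noncomputable def V (w : Fin n × Γ → R) (A : G.NT) (j l : ℕ) : R := ∑ x ∈ W G A l, wt hn w j x

theorem V_congr (w : Fin n × Γ → R) (A : G.NT) {j j' : ℕ} (h : j % n = j' % n) (l : ℕ) :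
    V G hn w A j l = V G hn w A j' l :=
  sum_congr rfl fun x _ => wt_congr hn w h x

/-- the maximal number of letters of a rule -/
noncomputable def mx : ℕ :=
  (G.inner_fin.toFinset.sup fun r => r.2.1.length + r.2.2.2.length) +
    G.last_fin.toFinset.sup fun r => r.2.length

theorem inner_le {A B : G.NT} {u v : List Γ} (h : (A, u, B, v) ∈ G.inner) :
    u.length + v.length ≤ mx G := by
  have h1 : (A, u, B, v) ∈ G.inner_fin.toFinset := G.inner_fin.mem_toFinset.2 h
  have h2 := Finset.le_sup (f := fun r : G.NT × List Γ × G.NT × List Γ =>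
    r.2.1.length + r.2.2.2.length) h1
  unfold mx
  dsimp only at h2
  omega

theorem last_le {A : G.NT} {u : List Γ} (h : (A, u) ∈ G.last) : u.length ≤ mx G := by
  have h1 : (A, u) ∈ G.last_fin.toFinset := G.last_fin.mem_toFinset.2 h
  have h2 := Finset.le_sup (f := fun r : G.NT × List Γ => r.2.length) h1
  unfold mx
  dsimp only at h2
  omega

/-- the indices: how many levels ago, the nonterminal, the position -/
abbrev Ind (n : ℕ) : Type := Fin (mx G + 1) × G.NT × Fin n

/-- the values before the level `l` -/
noncomputable def P (w : Fin n × Γ → R) (l : ℕ) (b : Ind G n) : R :=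
  if b.1.val + 1 ≤ l then V G hn w b.2.1 b.2.2.val (l - 1 - b.1.val) else 0

/-- the term of a rule `A' → u B v` -/
noncomputable def tin (i l : ℕ) (r : G.NT × List Γ × G.NT × List Γ) : List (Fin n × Γ) × Option (Ind G n) :=
  (loads hn i r.2.1 ++ loads hn (i + (l - r.2.2.2.length)) r.2.2.2,
    some (⟨min (r.2.1.length + r.2.2.2.length - 1) (mx G), by omega⟩, r.2.2.1,
      ix hn (i + r.2.1.length)))

/-- the term of a rule `A' → u` -/
def tla (i : ℕ) (r : G.NT × List Γ) : List (Fin n × Γ) × Option (Ind G n) :=
  (loads hn i r.2, none)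

open Classical in
/-- the terms of the value for the words of length `l` from the position `i` -/
noncomputable def terms (l : ℕ) (A : G.NT) (i : ℕ) : List (List (Fin n × Γ) × Option (Ind G n)) :=
  ((G.inner_fin.toFinset.filter (fun r => Un G A r.1 ∧ 1 ≤ r.2.1.length + r.2.2.2.length)).toList.map
    (tin G hn i l)) ++
  ((G.last_fin.toFinset.filter (fun r => Un G A r.1 ∧ r.2.length = l)).toList.map (tla G hn i))

theorem mem_terms {l : ℕ} {A : G.NT} {i : ℕ} {t : List (Fin n × Γ) × Option (Ind G n)} :
    t ∈ terms G hn l A i ↔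
      (∃ A' u B v, (A', u, B, v) ∈ G.inner ∧ Un G A A' ∧ 1 ≤ u.length + v.length ∧
        tin G hn i l (A', u, B, v) = t) ∨
      ∃ A' u, (A', u) ∈ G.last ∧ Un G A A' ∧ u.length = l ∧ tla G hn i (A', u) = t := by
  classical
  unfold terms
  rw [List.mem_append, List.mem_map, List.mem_map]
  constructor
  · rintro (⟨⟨A', u, B, v⟩, h1, h2⟩ | ⟨⟨A', u⟩, h1, h2⟩)
    · rw [Finset.mem_toList, mem_filter, Set.Finite.mem_toFinset] at h1
      exact Or.inl ⟨A', u, B, v, h1.1, h1.2.1, h1.2.2, h2⟩
    · rw [Finset.mem_toList, mem_filter, Set.Finite.mem_toFinset] at h1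
      exact Or.inr ⟨A', u, h1.1, h1.2.1, h1.2.2, h2⟩
  · rintro (⟨A', u, B, v, h1, h2, h3, h4⟩ | ⟨A', u, h1, h2, h3, h4⟩)
    · refine Or.inl ⟨(A', u, B, v), ?_, h4⟩
      rw [Finset.mem_toList, mem_filter, Set.Finite.mem_toFinset]
      exact ⟨h1, h2, h3⟩
    · refine Or.inr ⟨(A', u), ?_, h4⟩
      rw [Finset.mem_toList, mem_filter, Set.Finite.mem_toFinset]
      exact ⟨h1, h2, h3⟩

/-- the value of the term of a rule `A' → u B v` -/
theorem tv_tin (w : Fin n × Γ → R) (i l : ℕ) (A' B : G.NT) (u v : List Γ)
    (h1 : 1 ≤ u.length + v.length) (h2 : u.length + v.length ≤ mx G) :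
    tv w (P G hn w l) (tin G hn i l (A', u, B, v)) =
      if u.length + v.length ≤ l then
        ∑ y ∈ W G B (l - u.length - v.length), wt hn w i (u ++ y ++ v) else 0 := by
  have e1 : tv w (P G hn w l) (tin G hn i l (A', u, B, v)) =
      P G hn w l (⟨min (u.length + v.length - 1) (mx G), by omega⟩, B, ix hn (i + u.length)) *
        ((loads hn i u ++ loads hn (i + (l - v.length)) v).map w).prod := rfl
  rw [e1]
  unfold P
  dsimp only
  have e2 : min (u.length + v.length - 1) (mx G) = u.length + v.length - 1 := by omega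
  simp only [e2]
  by_cases h : u.length + v.length ≤ l
  · rw [if_pos (by omega), if_pos h]
    have e3 : l - 1 - (u.length + v.length - 1) = l - u.length - v.length := by omega
    have e4 : V G hn w B (ix hn (i + u.length)).val (l - u.length - v.length) =
        V G hn w B (i + u.length) (l - u.length - v.length) :=
      V_congr G hn w B (Nat.mod_mod _ _) _
    rw [e3, e4, List.map_append, List.prod_append]
    unfold V
    rw [sum_mul]
    refine sum_congr rfl fun y hy => ?_
    rw [mem_W] at hy
    rw [wt_append, wt_append, List.length_append, hy.1]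
    have e5 : i + (u.length + (l - u.length - v.length)) = i + (l - v.length) := by omega
    rw [e5]
    have e6 : ((loads hn i u).map w).prod = wt hn w i u := rfl
    have e7 : ((loads hn (i + (l - v.length)) v).map w).prod = wt hn w (i + (l - v.length)) v := rfl
    rw [e6, e7]
    ring
  · rw [if_neg (by omega), if_neg h, zero_mul]

theorem rec_V (hidem : ∀ a : R, a + a = a) (w : Fin n × Γ → R) (A : G.NT) (i l : ℕ) :
    V G hn w A i l = ((terms G hn l A i).map (tv w (P G hn w l))).sum := by
  refine Abs.antisymm ?_ ?_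
  · refine abs_sum fun x hx => ?_
    rw [mem_W] at hx
    obtain ⟨A', h1, h2⟩ := gen_split G hx.2
    rcases h2 with h2 | ⟨u, B, v, y, h2, h3, h4, h5⟩
    · have h6 : tla G hn i (A', x) ∈ terms G hn l A i :=
        (mem_terms G hn).2 (Or.inr ⟨A', x, h2, h1, hx.1, rfl⟩)
      have h7 := abs_of_lmem hidem (f := tv w (P G hn w l)) h6
      have h8 : tv w (P G hn w l) (tla G hn i (A', x)) = wt hn w i x := one_mul _
      rwa [h8] at h7
    · have h6 : tin G hn i l (A', u, B, v) ∈ terms G hn l A i :=
        (mem_terms G hn).2 (Or.inl ⟨A', u, B, v, h2, h1, h3, rfl⟩)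
      have h7 := abs_of_lmem hidem (f := tv w (P G hn w l)) h6
      have hlen : u.length + y.length + v.length = l := by
        rw [← hx.1, h5, List.length_append, List.length_append]
      rw [tv_tin G hn w i l A' B u v h3 (inner_le G h2), if_pos (by omega)] at h7
      refine Abs.trans ?_ h7
      rw [h5]
      exact abs_of_mem hidem (f := fun y => wt hn w i (u ++ y ++ v))
        ((mem_W G).2 ⟨by omega, h4⟩)
  · refine abs_lsum fun t ht => ?_
    rcases (mem_terms G hn).1 ht with ⟨A', u, B, v, h1, h2, h3, rfl⟩ | ⟨A', u, h1, h2, h3, rfl⟩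
    · rw [tv_tin G hn w i l A' B u v h3 (inner_le G h1)]
      split_ifs with h4
      · refine abs_sum fun y hy => ?_
        rw [mem_W] at hy
        refine abs_of_mem hidem (f := fun x => wt hn w i x) ((mem_W G).2 ⟨?_, ?_⟩)
        · rw [List.length_append, List.length_append, hy.1]
          omega
        · exact gen_of_un G h2 (LinGrammar.Gen.inner (G := G) _ _ u v y h1 hy.2)
      · exact abs_zero _
    · have h8 : tv w (P G hn w l) (tla G hn i (A', u)) = wt hn w i u := one_mul _
      rw [h8]
      exact abs_of_mem hidem (f := fun x => wt hn w i x)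
        ((mem_W G).2 ⟨h3, gen_of_un G h2 (LinGrammar.Gen.last (G := G) _ _ h1)⟩)

/-- the terms of all values -/
noncomputable def T (l : ℕ) (b : Ind G n) : List (List (Fin n × Γ) × Option (Ind G n)) :=
  if b.1.val = 0 then terms G hn l b.2.1 b.2.2.val
  else [([], some (⟨b.1.val - 1, by omega⟩, b.2.1, b.2.2))]

theorem rec_P (hidem : ∀ a : R, a + a = a) (w : Fin n × Γ → R) (l : ℕ) (b : Ind G n) :
    P G hn w (l + 1) b = ((T G hn l b).map (tv w (P G hn w l))).sum := by
  unfold T
  by_cases hb : b.1.val = 0
  · rw [if_pos hb, ← rec_V G hn hidem]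
    unfold P
    rw [hb, if_pos (by omega)]
    rfl
  · rw [if_neg hb, List.map_singleton, List.sum_singleton]
    have e1 : tv w (P G hn w l) ([], some (⟨b.1.val - 1, by omega⟩, b.2.1, b.2.2)) =
      P G hn w l (⟨b.1.val - 1, by omega⟩, b.2.1, b.2.2) := mul_one _
    rw [e1]
    unfold P
    dsimp only
    by_cases h : b.1.val + 1 ≤ l + 1
    · rw [if_pos h, if_pos (by omega)]
      congr 1
      omega
    · rw [if_neg h, if_neg (by omega)]

/-- the number of rules -/
noncomputable def nr : ℕ := G.inner_fin.toFinset.card + G.last_fin.toFinset.card + 1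

theorem T_length (l : ℕ) (b : Ind G n) : (T G hn l b).length ≤ nr G := by
  classical
  unfold T nr
  split_ifs
  · unfold terms
    rw [List.length_append, List.length_map, List.length_map, Finset.length_toList,
      Finset.length_toList]
    have h1 := card_filter_le G.inner_fin.toFinset
      (fun r => Un G b.2.1 r.1 ∧ 1 ≤ r.2.1.length + r.2.2.2.length)
    have h2 := card_filter_le G.last_fin.toFinset (fun r => Un G b.2.1 r.1 ∧ r.2.length = l)
    omega
  · simp

theorem T_term_length (l : ℕ) (b : Ind G n) : ∀ t ∈ T G hn l b, t.1.length ≤ mx G := by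
  intro t ht
  unfold T at ht
  split_ifs at ht
  · rcases (mem_terms G hn).1 ht with ⟨A', u, B, v, h1, _, _, rfl⟩ | ⟨A', u, h1, _, _, rfl⟩
    · show (loads hn b.2.2.val u ++ loads hn _ v).length ≤ _
      rw [List.length_append, loads_length, loads_length]
      exact inner_le G h1
    · show (loads hn b.2.2.val u).length ≤ _
      rw [loads_length]
      exact last_le G h1
  · rw [List.mem_singleton] at ht
    rw [ht]
    exact Nat.zero_le _

end Prog

/-- For each linear grammar there is a constant `C` such that the weight of the cheapest word of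
length `n` can be computed by a program with at most `C * n` registers and at most `C * n ^ 2`
steps, over each commutative semiring with idempotent addition. -/
theorem upper {Γ : Type} [Fintype Γ] (G : LinGrammar Γ) : ∃ C : ℕ, ∀ n : ℕ, 1 ≤ n →
    ∃ (ρ : Type) (_ : Fintype ρ) (_ : DecidableEq ρ), Fintype.card ρ ≤ C * n ∧
      ∀ (R : Type) [CommSemiring R], (∀ a : R, a + a = a) →
        ∃ (p : List (Instr R (Fin n × Γ) ρ)) (o : ρ), p.length ≤ C * n ^ 2 ∧
          ∀ w : Fin n × Γ → R, exec w p o = wordSum (Γ := Γ) G.language n w := by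
  classical
  obtain ⟨c, hc⟩ : ∃ c, c = (mx G + 1) * Fintype.card G.NT := ⟨_, rfl⟩
  obtain ⟨s, hs⟩ : ∃ s, s = nr G * (2 * mx G + 2) + 3 := ⟨_, rfl⟩
  refine ⟨2 * c + 4 + 2 * (c * s), fun n hn => ?_⟩
  have hcard : Fintype.card (Ind G n) = c * n := by
    unfold Ind
    rw [Fintype.card_prod, Fintype.card_prod, Fintype.card_fin, Fintype.card_fin, hc]
    ring
  refine ⟨Reg (Ind G n), inferInstance, inferInstance, ?_, ?_⟩
  · unfold Reg
    rw [Fintype.card_sum, Fintype.card_prod, hcard, Fintype.card_bool, Fintype.card_fin]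
    nlinarith
  · intro R _ hidem
    refine ⟨levels (T G hn) (n + 1), od' (⟨0, by omega⟩, G.start, ⟨0, hn⟩), ?_, ?_⟩
    · refine (levels_length (N := nr G) (M := mx G) (fun l b => T_length G hn l b)
        (fun l b => T_term_length G hn l b) (n + 1)).trans ?_
      rw [hcard, ← hs]
      have h1 : (n + 1) * (c * n * s) ≤ (2 * n) * (c * n * s) := Nat.mul_le_mul_right _ (by omega)
      have h2 : (2 * n) * (c * n * s) = 2 * (c * s) * n ^ 2 := by ring
      have h3 : 2 * (c * s) * n ^ 2 ≤ (2 * c + 4 + 2 * (c * s)) * n ^ 2 :=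
        Nat.mul_le_mul_right _ (by omega)
      omega
    · intro w
      have h1 := (levels_run w (T G hn) (P G hn w) (by
        funext b
        unfold P
        rw [if_neg (by omega)]
        rfl) (fun l b => rec_P G hn hidem w l b) (n + 1)).2 (⟨0, by omega⟩, G.start, ⟨0, hn⟩)
      rw [h1]
      unfold P
      dsimp only
      rw [if_pos (by omega)]
      unfold V wordSum W
      rw [sum_image (fun x _ y _ h => List.ofFn_injective h)]
      refine sum_congr rfl fun x _ => ?_
      rw [wt_ofFn]
      refine prod_congr rfl fun t _ => ?_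
      have e : ix hn (0 + t.val) = t := by
        unfold ix
        refine Fin.ext ?_
        show (0 + t.val) % n = t.val
        rw [zero_add]
        exact Nat.mod_eq_of_lt t.2
      rw [e]

end Pool.Agent.TH679.LW
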