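import Pool.Agent.TH679.CF.Main

/-!
Patterns for the words of a language over an arbitrary alphabet
-/

set_option autoImplicit false
set_option linter.unusedSectionVars false

namespace Pool.Agent.TH679.LW

open Finset
open Pool.Agent.H564R3.PW (Instr runs exec syms)
open Pool.Agent.H564R3.TS
open Pool.Agent.TH679.TG (sub img Ok syms_sub)
open Pool.Agent.TH679.CF (graph mem_graph fam mem_fam)

/-- What is allowed at a position: for each letter `none` (the letter is forbidden), `some none`
(the letter gets the weight 1) or `some (some y)` (it gets the weight of the variable `y`). -/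
abbrev Slot (Γ Y : Type) : Type := Γ → Option (Option Y)

section Slots

variable {Γ Y : Type} [DecidableEq Γ]

/-- only the letter `a` is allowed -/
def forced (a : Γ) : Slot Γ Y := fun b => if b = a then some none else none

/-- the variable of a letter, if any -/
def vr (s : Slot Γ Y) (a : Γ) : List Y := ((s a).bind id).toList

/-- the variables of a word -/
def vars : List (Slot Γ Y) → List Γ → List Y
  | s :: ss, a :: w => vr s a ++ vars ss w
  | _, _ => []

/-- the word is allowed by the pattern -/
def Al (ss : List (Slot Γ Y)) (w : List Γ) : Prop := List.Forall₂ (fun s a => s a ≠ none) ss w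

theorem vr_forced (a : Γ) : vr (forced (Y := Y) a) a = [] := by
  simp [vr, forced]

theorem vars_append : ∀ (ss : List (Slot Γ Y)) (tt : List (Slot Γ Y)) (u v : List Γ),
    ss.length = u.length → vars (ss ++ tt) (u ++ v) = vars ss u ++ vars tt v := by
  intro ss
  induction ss with
  | nil =>
    intro tt u v h
    cases u with
    | nil => rfl
    | cons a u => simp at h
  | cons s ss ih =>
    intro tt u v h
    cases u with
    | nil => simp at h
    | cons a u =>
      have h' : ss.length = u.length := by simpa using h
      show vr s a ++ vars (ss ++ tt) (u ++ v) = vr s a ++ vars ss u ++ vars tt v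
      rw [ih tt u v h', List.append_assoc]

theorem Al.length_eq {ss : List (Slot Γ Y)} {w : List Γ} (h : Al ss w) : ss.length = w.length :=
  List.Forall₂.length_eq h

theorem Al.append {ss tt : List (Slot Γ Y)} {u v : List Γ} (h1 : Al ss u) (h2 : Al tt v) :
    Al (ss ++ tt) (u ++ v) := by
  unfold Al at *
  induction h1 with
  | nil => exact h2
  | cons h _ ih => exact List.Forall₂.cons h ih

theorem Al.split : ∀ {ss tt : List (Slot Γ Y)} {w : List Γ}, Al (ss ++ tt) w →
    ∃ u v, w = u ++ v ∧ Al ss u ∧ Al tt v := by
  intro ss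
  induction ss with
  | nil => intro tt w h; exact ⟨[], w, rfl, List.Forall₂.nil, h⟩
  | cons s ss ih =>
    intro tt w h
    unfold Al at h
    rw [List.cons_append] at h
    cases h with
    | cons h1 h2 =>
      obtain ⟨u, v, rfl, h3, h4⟩ := ih h2
      exact ⟨_ :: u, v, rfl, List.Forall₂.cons h1 h3, h4⟩

theorem Al.cons_inv {s : Slot Γ Y} {ss : List (Slot Γ Y)} {w : List Γ} (h : Al (s :: ss) w) :
    ∃ a v, w = a :: v ∧ s a ≠ none ∧ Al ss v := by
  unfold Al at h
  cases h with
  | cons h1 h2 => exact ⟨_, _, rfl, h1, h2⟩

theorem Al.nil_inv {w : List Γ} (h : Al ([] : List (Slot Γ Y)) w) : w = [] := by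
  unfold Al at h
  rwa [List.forall₂_nil_left_iff] at h

theorem Al.rev {ss : List (Slot Γ Y)} {w : List Γ} (h : Al ss w) : Al ss.reverse w.reverse := by
  unfold Al at *
  rwa [List.forall₂_reverse_iff]

theorem forced_ne {a b : Γ} (h : forced (Y := Y) a b ≠ none) : b = a := by
  unfold forced at h
  by_contra hcon
  rw [if_neg hcon] at h
  exact h rfl

theorem forced_self (a : Γ) : forced (Y := Y) a a ≠ none := by
  unfold forced
  rw [if_pos rfl]
  simp

theorem al_forced : ∀ (t : List Γ), Al (Y := Y) (t.map forced) t := by
  intro t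
  induction t with
  | nil => exact List.Forall₂.nil
  | cons a t ih => exact List.Forall₂.cons (forced_self a) ih

theorem al_forced_inv : ∀ {t w : List Γ}, Al (Y := Y) (t.map forced) w → w = t := by
  intro t
  induction t with
  | nil =>
    intro w h
    exact h.nil_inv
  | cons a t ih =>
    intro w h
    rw [List.map_cons] at h
    obtain ⟨b, v, rfl, h1, h2⟩ := h.cons_inv
    rw [forced_ne h1, ih h2]

theorem vars_forced : ∀ (t : List Γ), vars (Y := Y) (t.map forced) t = [] := by
  intro t
  induction t with
  | nil => rfl
  | cons a t ih =>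
    show vr (forced a) a ++ vars (t.map forced) t = []
    rw [vr_forced, ih]
    rfl

theorem vars_rev {ss : List (Slot Γ Y)} {w : List Γ} (h : Al ss w) :
    (vars ss.reverse w.reverse).Perm (vars ss w) := by
  unfold Al at h
  induction h with
  | nil => exact List.Perm.refl _
  | @cons s a ss w h1 h2 ih =>
    have h3 : ss.length = w.length := h2.length_eq
    rw [List.reverse_cons, List.reverse_cons, vars_append _ _ _ _ (by simpa using h3)]
    show (_ ++ (vr s a ++ [])).Perm (vr s a ++ vars ss w)
    rw [List.append_nil]
    exact List.perm_append_comm.trans (List.Perm.append_left _ ih)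

theorem al_iff : ∀ (l : List (Slot Γ Y)) (w : Fin l.length → Γ),
    Al l (List.ofFn w) ↔ ∀ i, l.get i (w i) ≠ none := by
  intro l
  induction l with
  | nil =>
    intro w
    constructor
    · intro _ i
      exact i.elim0
    · intro _
      rw [List.ofFn_zero]
      exact List.Forall₂.nil
  | cons s l ih =>
    intro w
    have e : List.ofFn w = w 0 :: List.ofFn (fun i : Fin l.length => w i.succ) :=
      List.ofFn_succ ..
    rw [e]
    constructor
    · intro h i
      cases h with
      | cons h1 h2 =>
        refine Fin.cases ?_ (fun j => ?_) i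
        · exact h1
        · exact (ih _).1 h2 j
    · intro h
      exact List.Forall₂.cons (h 0) ((ih _).2 fun j => h j.succ)

theorem mem_vars : ∀ (l : List (Slot Γ Y)) (w : Fin l.length → Γ) (y : Y),
    y ∈ vars l (List.ofFn w) → ∃ i, l.get i (w i) = some (some y) := by
  intro l
  induction l with
  | nil =>
    intro w y h
    have : vars ([] : List (Slot Γ Y)) (List.ofFn w) = [] := by
      cases List.ofFn w <;> rfl
    rw [this] at h
    exact absurd h List.not_mem_nil
  | cons s l ih =>
    intro w y h
    have e : List.ofFn w = w 0 :: List.ofFn (fun i : Fin l.length => w i.succ) :=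
      List.ofFn_succ ..
    rw [e] at h
    replace h : y ∈ vr s (w 0) ++ vars l (List.ofFn (fun i : Fin l.length => w i.succ)) := h
    rw [List.mem_append] at h
    rcases h with h | h
    · refine ⟨0, ?_⟩
      show s (w 0) = some (some y)
      unfold vr at h
      rcases hs : s (w 0) with _ | z
      · rw [hs] at h
        simp at h
      · rw [hs] at h
        rw [Option.bind_some, id, Option.mem_toList] at h
        rw [Option.mem_def.1 h]
    · obtain ⟨i, hi⟩ := ih _ y h
      exact ⟨i.succ, hi⟩

variable [DecidableEq Y]

theorem count_vr (s : Slot Γ Y) (a : Γ) (y : Y) :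
    (vr s a).count y = if s a = some (some y) then 1 else 0 := by
  unfold vr
  rcases s a with _ | _ | z
  · simp
  · simp
  · rw [Option.bind_some, id, Option.toList_some, List.count_singleton]
    simp only [beq_iff_eq, Option.some.injEq]

theorem sum_vars : ∀ (l : List (Slot Γ Y)) (w : Fin l.length → Γ) (y : Y),
    (∑ i, if l.get i (w i) = some (some y) then 1 else 0) = (vars l (List.ofFn w)).count y := by
  intro l
  induction l with
  | nil =>
    intro w y
    have : vars ([] : List (Slot Γ Y)) (List.ofFn w) = [] := by
      cases List.ofFn w <;> rfl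
    rw [this]
    simp
  | cons s l ih =>
    intro w y
    have e : List.ofFn w = w 0 :: List.ofFn (fun i : Fin l.length => w i.succ) :=
      List.ofFn_succ ..
    rw [e]
    show _ = (vr s (w 0) ++ vars l (List.ofFn (fun i : Fin l.length => w i.succ))).count y
    rw [List.count_append, ← ih, count_vr]
    exact Fin.sum_univ_succ _

variable [Fintype Γ]

theorem img_graph (l : List (Slot Γ Y)) (w : Fin l.length → Γ) (y : Y) :
    img (fun x : Fin l.length × Γ => l.get x.1 x.2) (ind (graph w)) y =
      (vars l (List.ofFn w)).count y := by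
  rw [← sum_vars]
  unfold img
  rw [sum_filter, ← univ_product_univ, sum_product]
  refine sum_congr rfl fun i _ => ?_
  dsimp only
  rw [sum_eq_single (w i)]
  · unfold ind
    rw [if_pos (mem_graph.2 rfl)]
  · intro a _ ha
    unfold ind
    rw [if_neg (fun h => ha (mem_graph.1 h).symm)]
    simp
  · intro h
    exact absurd (mem_univ _) h

/-- A program for the words of a language is turned into a program for the sets `F`, if the allowed
words of the language have exactly these sets of variables. -/
theorem transfer {R ρ : Type} [Semiring R] [Nontrivial R] [DecidableEq ρ] {A : Language Γ}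
    (l : List (Slot Γ Y)) (F : Finset (Finset Y))
    (h1 : ∀ C ∈ F, ∃ w, Al l w ∧ w ∈ A ∧ ∀ y, (vars l w).count y = if y ∈ C then 1 else 0)
    (h2 : ∀ w, Al l w → w ∈ A → ∃ C ∈ F, ∀ y ∈ C, y ∈ vars l w)
    (p : List (Instr R (Fin l.length × Γ) ρ)) (o : ρ)
    (g1 : ∀ B ∈ fam A l.length, ind B ∈ syms p o)
    (g2 : ∀ u ∈ syms p o, ∃ B ∈ fam A l.length, ∀ x ∈ B, u x ≠ 0) :
    (∀ C ∈ F, ind C ∈ syms (p.map (sub fun x => l.get x.1 x.2)) o) ∧
      ∀ v ∈ syms (p.map (sub fun x => l.get x.1 x.2)) o, ∃ C ∈ F, ∀ y ∈ C, v y ≠ 0 := by
  obtain ⟨cls, hcls⟩ : ∃ cls : Fin l.length × Γ → Option (Option Y),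
    cls = fun x => l.get x.1 x.2 := ⟨_, rfl⟩
  rw [← hcls]
  constructor
  · intro C hC
    obtain ⟨w, a1, a2, a3⟩ := h1 C hC
    have hwl := a1.length_eq
    have hw' : List.ofFn (fun i : Fin l.length => w.get (i.cast hwl)) = w := by
      rw [← List.ofFn_congr hwl.symm (fun i => w.get i)]
      exact List.ofFn_get w
    rw [syms_sub]
    refine ⟨ind (graph (fun i : Fin l.length => w.get (i.cast hwl))),
      g1 _ (mem_fam.2 ⟨_, by rw [hw']; exact a2, rfl⟩), ?_, ?_⟩
    · rw [← hw', al_iff] at a1
      intro x hx
      unfold ind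
      rw [if_neg]
      intro hxg
      rw [mem_graph] at hxg
      rw [hcls] at hx
      apply a1 x.1
      rw [hxg]
      exact hx
    · funext y
      rw [hcls, img_graph, hw', a3]
      rfl
  · intro v hv
    rw [syms_sub] at hv
    obtain ⟨u, hu, hok, rfl⟩ := hv
    obtain ⟨B, hB, hBu⟩ := g2 u hu
    obtain ⟨x, hx, rfl⟩ := mem_fam.1 hB
    have hAl : Al l (List.ofFn x) := by
      rw [al_iff]
      intro i hi
      refine hBu (i, x i) (mem_graph.2 rfl) (hok _ ?_)
      rw [hcls]
      exact hi
    obtain ⟨C, hC, hC2⟩ := h2 _ hAl hx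
    refine ⟨C, hC, ?_⟩
    intro y hy
    obtain ⟨i, hi⟩ := mem_vars l x y (hC2 y hy)
    have h3 : u (i, x i) ≠ 0 := hBu _ (mem_graph.2 rfl)
    have h4 : u (i, x i) ≤ img cls u y := by
      unfold img
      refine single_le_sum (f := u) (fun _ _ => Nat.zero_le _) ?_
      rw [mem_filter, hcls]
      exact ⟨mem_univ _, hi⟩
    omega

end Slots

end Pool.Agent.TH679.LW
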