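import Pool.Agent.TH679.LW.Main

/-!
The asymptotic form
-/

set_option autoImplicit false

namespace Pool.Agent.TH679.LW

open Pool.Agent.TH679.PL (kap kap_ge clog_le_logb)

theorem steps_ge {ε : ℝ} (hε : 0 < ε) (hε2 : ε ≤ 1) {n K L : ℕ}
    (g1 : Real.logb 2 n ^ 2 + 2 ≤ (2 : ℝ) ^ (ε / 4 * Real.logb 2 n))
    (g4 : 1100 * Real.logb 2 n ^ 3 ≤ (2 : ℝ) ^ (ε / 16 * Real.logb 2 n - 1))
    (g2 : 100 / ε ≤ Real.logb 2 n) (g3 : 16 ≤ Real.logb 2 n) (hn : 1 ≤ n) (hL : 1 ≤ L)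
    (hK : (K : ℝ) ≤ (n : ℝ) ^ (1 - ε))
    (hlaw : ∀ d q : ℕ, 1 ≤ d → 1 ≤ q → 140 * d ^ 3 * q * 2 ^ d ≤ n →
      (2 ^ d) ^ kap q ≤ 2 * L * ((Nat.clog 2 L + 1) * K) ^ kap q) :
    (n : ℝ) ^ (ε ^ 2 / 400 * Real.logb 2 n) ≤ L := by
  by_contra hlt
  push Not at hlt
  obtain ⟨ν, hν⟩ : ∃ ν, ν = Real.logb 2 n := ⟨_, rfl⟩
  rw [← hν] at g1 g2 g3 g4 hlt
  have hn0 : (0 : ℝ) < n := by exact_mod_cast hn
  have hn2 : (n : ℝ) = 2 ^ ν := by
    rw [hν]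
    exact (Real.rpow_logb (by norm_num) (by norm_num) hn0).symm
  have hν0 : 0 < ν := by linarith
  have hεν : 100 ≤ ε * ν := by
    rw [div_le_iff₀ hε] at g2
    linarith
  obtain ⟨s, hs⟩ : ∃ s, s = ⌊ε / 8 * ν⌋₊ := ⟨_, rfl⟩
  have hs1 : (s : ℝ) ≤ ε / 8 * ν := by
    rw [hs]
    exact Nat.floor_le (by positivity)
  have hs2 : ε / 8 * ν < s + 1 := by
    rw [hs]
    exact Nat.lt_floor_add_one _
  obtain ⟨B, hB⟩ : ∃ B, B = ⌊ν⌋₊ := ⟨_, rfl⟩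
  have hB1 : (B : ℝ) ≤ ν := by
    rw [hB]
    exact Nat.floor_le hν0.le
  have hB2 : ν < B + 1 := by
    rw [hB]
    exact Nat.lt_floor_add_one _
  have hsB : s + 1 ≤ B := by
    have h1 : (s : ℝ) + 1 ≤ B := by nlinarith
    exact_mod_cast h1
  obtain ⟨h, hh⟩ : ∃ h, h = B - s := ⟨_, rfl⟩
  have hh' : h + s = B := by omega
  have hh1 : 1 ≤ h := by omega
  obtain ⟨t, ht⟩ : ∃ t, t = s / 2 := ⟨_, rfl⟩
  obtain ⟨t', ht'⟩ : ∃ t', t' = s - t := ⟨_, rfl⟩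
  have htt : t + t' = s := by omega
  have ht2 : s ≤ 2 * t' := by omega
  have hBn : 2 ^ B ≤ n := by
    have h1 : ((2 ^ B : ℕ) : ℝ) ≤ (n : ℝ) := by
      rw [hn2]
      push_cast
      rw [← Real.rpow_natCast]
      exact Real.rpow_le_rpow_of_exponent_le (by norm_num) hB1
    exact_mod_cast h1
  have hfit : 140 * h ^ 3 * 2 ^ t * 2 ^ h ≤ n := by
    refine le_trans ?_ hBn
    have h1 : 140 * h ^ 3 ≤ 2 ^ t' := by
      have h2 : ((140 * h ^ 3 : ℕ) : ℝ) ≤ ((2 ^ t' : ℕ) : ℝ) := by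
        push_cast
        have h3 : (h : ℝ) ≤ ν := by
          have : (h : ℝ) + s = B := by exact_mod_cast hh'
          have : (0 : ℝ) ≤ s := Nat.cast_nonneg _
          linarith
        have h4 : (h : ℝ) ^ 3 ≤ ν ^ 3 := pow_le_pow_left₀ (Nat.cast_nonneg _) h3 3
        have h40 : (0 : ℝ) ≤ ν ^ 3 := pow_nonneg hν0.le 3
        have h5 : (2 : ℝ) ^ (ε / 16 * ν - 1) ≤ (2 : ℝ) ^ t' := by
          rw [← Real.rpow_natCast]
          refine Real.rpow_le_rpow_of_exponent_le (by norm_num) ?_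
          have h6 : (s : ℝ) ≤ 2 * t' := by exact_mod_cast ht2
          linarith
        linarith
      exact_mod_cast h2
    calc 140 * h ^ 3 * 2 ^ t * 2 ^ h ≤ 2 ^ t' * 2 ^ t * 2 ^ h :=
          Nat.mul_le_mul_right _ (Nat.mul_le_mul_right _ h1)
      _ = 2 ^ B := by
          rw [← pow_add, ← pow_add]
          congr 1
          omega
  obtain ⟨κ, hκ⟩ : ∃ κ, κ = kap (2 ^ t) := ⟨_, rfl⟩
  have hl := hlaw h (2 ^ t) hh1 Nat.one_le_two_pow hfit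
  rw [← hκ] at hl
  have hκ1 : ε / 64 * ν ≤ κ := by
    have h1 : (t : ℝ) / 2 - 1 ≤ κ := by
      rw [hκ]
      refine kap_ge ?_
      rw [Real.rpow_natCast]
      push_cast
      exact le_rfl
    have h2 : s ≤ 2 * t + 1 := by omega
    have h3 : (s : ℝ) ≤ 2 * t + 1 := by exact_mod_cast h2
    nlinarith
  have hL0 : (0 : ℝ) < L := by exact_mod_cast hL
  have hLlog : Real.logb 2 L ≤ ε ^ 2 / 400 * ν ^ 2 := by
    rw [Real.logb_le_iff_le_rpow (by norm_num) hL0]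
    refine hlt.le.trans (le_of_eq ?_)
    rw [hn2, ← Real.rpow_mul (by norm_num)]
    congr 1
    ring
  have hclog : (Nat.clog 2 L : ℝ) + 1 ≤ ν ^ 2 + 2 := by
    have e1 := clog_le_logb hL
    have e3 : ε ^ 2 ≤ 1 := by nlinarith
    have e2 : ε ^ 2 / 400 * ν ^ 2 ≤ 1 * ν ^ 2 :=
      mul_le_mul_of_nonneg_right (by linarith) (sq_nonneg ν)
    linarith
  have hx : ((((Nat.clog 2 L + 1) * K : ℕ)) : ℝ) ≤ 2 ^ ((1 - 3 * ε / 4) * ν) := by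
    push_cast
    have e0 : (K : ℝ) ≤ 2 ^ ((1 - ε) * ν) := by
      refine hK.trans (le_of_eq ?_)
      rw [hn2, ← Real.rpow_mul (by norm_num), mul_comm]
    have e1 : ((Nat.clog 2 L : ℝ) + 1) * K ≤ (ν ^ 2 + 2) * 2 ^ ((1 - ε) * ν) :=
      mul_le_mul hclog e0 (Nat.cast_nonneg _) (by positivity)
    have e3 : (2 : ℝ) ^ ((1 - 3 * ε / 4) * ν) = 2 ^ (ε / 4 * ν) * 2 ^ ((1 - ε) * ν) := by
      rw [← Real.rpow_add (by norm_num)]
      congr 1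
      ring
    rw [e3]
    exact e1.trans (mul_le_mul_of_nonneg_right g1 (by positivity))
  have hm2 : (2 : ℝ) ^ ((1 - ε / 2) * ν) ≤ ((2 ^ h : ℕ) : ℝ) := by
    have e1 : ((2 ^ h : ℕ) : ℝ) = 2 ^ ((h : ℕ) : ℝ) := by
      rw [Real.rpow_natCast]
      push_cast
      rfl
    rw [e1]
    refine Real.rpow_le_rpow_of_exponent_le (by norm_num) ?_
    have e2 : (h : ℝ) + s = B := by exact_mod_cast hh'
    nlinarith
  have hlaw' : ((2 : ℝ) ^ ((1 - ε / 2) * ν)) ^ κ ≤ 2 * L * (2 ^ ((1 - 3 * ε / 4) * ν)) ^ κ := by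
    have e1 : ((((2 ^ h) ^ κ : ℕ)) : ℝ) ≤ ((2 * L * ((Nat.clog 2 L + 1) * K) ^ κ : ℕ) : ℝ) := by
      exact_mod_cast hl
    rw [Nat.cast_pow (2 ^ h) κ, Nat.cast_mul (2 * L),
      Nat.cast_pow ((Nat.clog 2 L + 1) * K) κ, Nat.cast_mul 2 L, Nat.cast_ofNat] at e1
    refine (pow_le_pow_left₀ (by positivity) hm2 κ).trans (e1.trans ?_)
    refine mul_le_mul_of_nonneg_left ?_ (by positivity)
    exact pow_le_pow_left₀ (Nat.cast_nonneg _) hx κ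
  have hfin : ε / 4 * ν * κ ≤ 1 + ε ^ 2 / 400 * ν ^ 2 := by
    have e1 : ((2 : ℝ) ^ ((1 - ε / 2) * ν)) ^ κ =
        2 ^ (ε / 4 * ν * κ) * (2 ^ ((1 - 3 * ε / 4) * ν)) ^ κ := by
      rw [← Real.rpow_natCast, ← Real.rpow_natCast, ← Real.rpow_mul (by norm_num),
        ← Real.rpow_mul (by norm_num), ← Real.rpow_add (by norm_num)]
      congr 1
      ring
    rw [e1] at hlaw'
    have e2 : (2 : ℝ) ^ (ε / 4 * ν * κ) ≤ 2 * L := le_of_mul_le_mul_right hlaw' (by positivity)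
    have e3 : Real.logb 2 ((2 : ℝ) ^ (ε / 4 * ν * κ)) ≤ Real.logb 2 (2 * L) :=
      Real.logb_le_logb_of_le (by norm_num) (by positivity) e2
    rw [Real.logb_rpow (by norm_num) (by norm_num), Real.logb_mul (by norm_num) hL0.ne',
      Real.logb_self_eq_one (by norm_num)] at e3
    linarith
  have e1 : ε / 4 * ν * (ε / 64 * ν) ≤ ε / 4 * ν * κ :=
    mul_le_mul_of_nonneg_left hκ1 (by positivity)
  have e2 : 100 * 100 ≤ (ε * ν) * (ε * ν) := mul_le_mul hεν hεν (by norm_num) (by positivity)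
  nlinarith

end Pool.Agent.TH679.LW
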