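import Pool.Agent.H822R5.LN.Defs

/-!
A linear grammar: two heads read the word from both ends, the options of the blocks at the left end
and at the right end are compared in turns
-/

set_option autoImplicit false

namespace Pool.Agent.TH679.LW

open Pool.Agent.H822R5.LN (LinGrammar)

/-- the letters -/
inductive Let
  | bit (b : Bool) | sep | fin | yes | no | cls | mid
  deriving DecidableEq, Fintype

/-- The nonterminals; `true` is the left side.

`skip s`: the next block on the side `s` is looked for; `look s`: the marked option of the block on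
the side `s` is looked for; `cmp s`: the first list of the option on the side `s` is compared with
the second list of the previous option on the other side; `stop`: the rest. -/
inductive Sta
  | skip (s : Bool) | look (s : Bool) | cmp (s : Bool) | cmpb (s : Bool) (b : Bool)
  | cmps (s : Bool) | stop
  deriving DecidableEq, Fintype

/-- the side of the next letter -/
def side : Sta → Bool
  | .skip s => s
  | .look s => s
  | .cmp s => s
  | .cmpb s _ => !s
  | .cmps s => !s
  | .stop => true

theorem side_skip (s : Bool) : side (.skip s) = s := rfl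

theorem side_look (s : Bool) : side (.look s) = s := rfl

theorem side_cmp (s : Bool) : side (.cmp s) = s := rfl

theorem side_cmpb (s b : Bool) : side (.cmpb s b) = !s := rfl

theorem side_cmps (s : Bool) : side (.cmps s) = !s := rfl

/-- the next nonterminal -/
def nxt : Sta → Let → Option Sta
  | .skip s, .cls => some (.look s)
  | .skip s, .bit _ => some (.skip s)
  | .skip s, .sep => some (.skip s)
  | .skip s, .fin => some (.skip s)
  | .skip s, .no => some (.skip s)
  | .skip true, .mid => some .stop
  | .look s, .yes => some (.cmp s)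
  | .look s, .bit _ => some (.look s)
  | .look s, .sep => some (.look s)
  | .look s, .fin => some (.look s)
  | .look s, .no => some (.look s)
  | .cmp s, .bit b => some (.cmpb s b)
  | .cmp s, .sep => some (.cmps s)
  | .cmpb s b, .bit b' => if b = b' then some (.cmp s) else none
  | .cmps s, .fin => some (.skip !s)
  | .stop, .bit _ => some .stop
  | .stop, .sep => some .stop
  | .stop, .fin => some .stop
  | .stop, .no => some .stop
  | _, _ => none

/-- the rule for the nonterminal `q` and the letter `a`, with the next nonterminal `q'` -/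
def rule (q : Sta) (a : Let) (q' : Sta) : Sta × List Let × Sta × List Let :=
  if side q then (q, [a], q', []) else (q, [], q', [a])

/-- The linear grammar: the rules `q → a q'` (if the side of `q` is the left one) and `q → q' a` (if
it is the right one) for `nxt q a = q'`, and `stop → ε`. -/
def gram : LinGrammar Let where
  NT := Sta
  start := .skip true
  inner := {r | ∃ q a q', nxt q a = some q' ∧ r = rule q a q'}
  last := {(.stop, [])}
  inner_fin := by
    refine Set.Finite.subset (Set.finite_range fun x : Sta × Let × Sta => rule x.1 x.2.1 x.2.2) ?_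
    rintro r ⟨q, a, q', _, rfl⟩
    exact ⟨(q, a, q'), rfl⟩
  last_fin := Set.finite_singleton _

/-- `w` can be derived from `q` -/
def Der (q : Sta) (w : List Let) : Prop := gram.Gen q w

theorem gen_cases {α : Type} {G : LinGrammar α} {q : G.NT} {w : List α} (h : G.Gen q w) :
    (q, w) ∈ G.last ∨ ∃ u B v w', (q, u, B, v) ∈ G.inner ∧ G.Gen B w' ∧ w = u ++ w' ++ v := by
  cases h with
  | last _ _ h => exact Or.inl h
  | inner _ B u v w' h hw => exact Or.inr ⟨u, B, v, w', h, hw, rfl⟩

theorem der_cases {q : Sta} {w : List Let} (h : Der q w) :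
    (q = .stop ∧ w = []) ∨ ∃ a q' w', nxt q a = some q' ∧ Der q' w' ∧
      w = if side q then a :: w' else w' ++ [a] := by
  rcases gen_cases h with h' | ⟨u, B, v, w', h', hw, hw'⟩
  · exact Or.inl (Prod.mk.inj (Set.mem_singleton_iff.1 h'))
  · right
    obtain ⟨q₁, a, q', h1, h2⟩ := h'
    unfold rule at h2
    cases hs : side q₁
    · rw [hs, if_neg (by simp)] at h2
      obtain ⟨e1, e2⟩ := Prod.mk.inj h2
      obtain ⟨e2, e3⟩ := Prod.mk.inj e2
      obtain ⟨e3, e4⟩ := Prod.mk.inj e3
      subst e1 e2 e3 e4
      refine ⟨a, _, w', h1, hw, ?_⟩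
      rw [hs, if_neg (by simp), hw']
      rfl
    · rw [hs, if_pos rfl] at h2
      obtain ⟨e1, e2⟩ := Prod.mk.inj h2
      obtain ⟨e2, e3⟩ := Prod.mk.inj e2
      obtain ⟨e3, e4⟩ := Prod.mk.inj e3
      subst e1 e2 e3 e4
      refine ⟨a, _, w', h1, hw, ?_⟩
      rw [hs, if_pos rfl, hw', List.append_nil]
      rfl

theorem der_of {q q' : Sta} {a : Let} {w' : List Let} (h1 : nxt q a = some q') (h2 : Der q' w') :
    Der q (if side q then a :: w' else w' ++ [a]) := by
  have h3 : rule q a q' ∈ gram.inner := ⟨q, a, q', h1, rfl⟩
  unfold rule at h3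
  cases hs : side q
  · rw [hs, if_neg (by simp)] at h3
    rw [if_neg (by simp)]
    exact LinGrammar.Gen.inner (G := gram) q q' [] [a] w' h3 h2
  · rw [hs, if_pos rfl] at h3
    rw [if_pos rfl]
    have h4 := LinGrammar.Gen.inner (G := gram) q q' [a] [] w' h3 h2
    rwa [List.append_nil] at h4

theorem der_stop_nil : Der .stop [] :=
  LinGrammar.Gen.last (G := gram) _ _ (Set.mem_singleton _)

/-- the word with the text `x` on the side `s` and the text `y` on the other side, each read from
the outside to the inside -/
def asm (s : Bool) (x y : List Let) : List Let :=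
  if s then x ++ .mid :: y.reverse else y ++ .mid :: x.reverse

theorem asm_swap (s : Bool) (x y : List Let) : asm (!s) y x = asm s x y := by
  cases s <;> rfl

theorem der_read {q : Sta} {s : Bool} (hs : side q = s) (a : Let) (x y : List Let) :
    Der q (asm s (a :: x) y) ↔ ∃ q', nxt q a = some q' ∧ Der q' (asm s x y) := by
  have e : asm s (a :: x) y = if side q then a :: asm s x y else asm s x y ++ [a] := by
    rw [hs]
    cases s
    · unfold asm
      rw [if_neg (by simp), if_neg (by simp), if_neg (by simp), List.reverse_cons,
        List.append_assoc, List.cons_append]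
    · rfl
  constructor
  · intro h
    rcases der_cases h with ⟨_, h2⟩ | ⟨b, q', w', h1, h2, h3⟩
    · exfalso
      cases s <;> simp [asm] at h2
    · rw [e] at h3
      cases hq : side q
      · rw [hq, if_neg (by simp), if_neg (by simp)] at h3
        obtain ⟨h4, h5⟩ := List.append_inj' h3 rfl
        rw [List.singleton_inj] at h5
        subst h5
        subst h4
        exact ⟨q', h1, h2⟩
      · rw [hq, if_pos rfl, if_pos rfl, List.cons.injEq] at h3
        obtain ⟨rfl, rfl⟩ := h3
        exact ⟨q', h1, h2⟩
  · rintro ⟨q', h1, h2⟩
    rw [e]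
    exact der_of h1 h2

/-- letters which are skipped -/
def Pl (a : Let) : Prop := a ≠ .yes ∧ a ≠ .cls ∧ a ≠ .mid

theorem nxt_skip {s : Bool} {a : Let} (h : Pl a) : nxt (.skip s) a = some (.skip s) := by
  obtain ⟨h1, h2, h3⟩ := h
  cases a <;> first | rfl | exact absurd rfl h1 | exact absurd rfl h2 | exact absurd rfl h3

theorem nxt_look {s : Bool} {a : Let} (h : Pl a) : nxt (.look s) a = some (.look s) := by
  obtain ⟨h1, h2, h3⟩ := h
  cases a <;> first | rfl | exact absurd rfl h1 | exact absurd rfl h2 | exact absurd rfl h3

theorem nxt_stop {a : Let} (h : Pl a) : nxt .stop a = some .stop := by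
  obtain ⟨h1, h2, h3⟩ := h
  cases a <;> first | rfl | exact absurd rfl h1 | exact absurd rfl h2 | exact absurd rfl h3

theorem der_skip {s : Bool} : ∀ {r : List Let} (x y : List Let), (∀ a ∈ r, Pl a) →
    (Der (.skip s) (asm s (r ++ x) y) ↔ Der (.skip s) (asm s x y)) := by
  intro r
  induction r with
  | nil => intro x y _; rfl
  | cons a r ih =>
    intro x y h
    rw [List.cons_append, der_read (side_skip s), nxt_skip (h a List.mem_cons_self),
      ← ih x y fun b hb => h b (List.mem_cons_of_mem _ hb)]
    constructor
    · rintro ⟨q', h1, h2⟩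
      rwa [← Option.some.inj h1] at h2
    · intro h2
      exact ⟨_, rfl, h2⟩

theorem der_look {s : Bool} : ∀ {r : List Let} (x y : List Let), (∀ a ∈ r, Pl a) →
    (Der (.look s) (asm s (r ++ x) y) ↔ Der (.look s) (asm s x y)) := by
  intro r
  induction r with
  | nil => intro x y _; rfl
  | cons a r ih =>
    intro x y h
    rw [List.cons_append, der_read (side_look s), nxt_look (h a List.mem_cons_self),
      ← ih x y fun b hb => h b (List.mem_cons_of_mem _ hb)]
    constructor
    · rintro ⟨q', h1, h2⟩
      rwa [← Option.some.inj h1] at h2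
    · intro h2
      exact ⟨_, rfl, h2⟩

/-- what can be skipped contains no marked option -/
theorem der_skip_inv {s : Bool} : ∀ {r : List Let} (x y : List Let),
    (∀ a ∈ r, a ≠ .cls ∧ a ≠ .mid) → Der (.skip s) (asm s (r ++ x) y) →
    (∀ a ∈ r, Pl a) ∧ Der (.skip s) (asm s x y) := by
  intro r
  induction r with
  | nil => intro x y _ h; exact ⟨fun a ha => absurd ha List.not_mem_nil, h⟩
  | cons a r ih =>
    intro x y h h1
    have ha := h a List.mem_cons_self
    rw [List.cons_append, der_read (side_skip s)] at h1
    obtain ⟨q', h2, h3⟩ := h1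
    have hpa : Pl a := by
      refine ⟨?_, ha.1, ha.2⟩
      rintro rfl
      exact absurd h2 (by simp [nxt])
    rw [nxt_skip hpa] at h2
    rw [← Option.some.inj h2] at h3
    obtain ⟨h4, h5⟩ := ih x y (fun b hb => h b (List.mem_cons_of_mem _ hb)) h3
    refine ⟨?_, h5⟩
    intro b hb
    rcases List.mem_cons.1 hb with rfl | hb
    · exact hpa
    · exact h4 b hb

theorem der_cls {s : Bool} (x y : List Let) :
    Der (.skip s) (asm s (.cls :: x) y) ↔ Der (.look s) (asm s x y) := by
  rw [der_read (side_skip s)]
  constructor
  · rintro ⟨q', h1, h2⟩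
    have : Sta.look s = q' := Option.some.inj h1
    rwa [← this] at h2
  · intro h
    exact ⟨_, rfl, h⟩

theorem der_yes {s : Bool} (x y : List Let) :
    Der (.look s) (asm s (.yes :: x) y) ↔ Der (.cmp s) (asm s x y) := by
  rw [der_read (side_look s)]
  constructor
  · rintro ⟨q', h1, h2⟩
    have : Sta.cmp s = q' := Option.some.inj h1
    rwa [← this] at h2
  · intro h
    exact ⟨_, rfl, h⟩

theorem not_der_look_cls {s : Bool} (x y : List Let) : ¬ Der (.look s) (asm s (.cls :: x) y) := by
  rw [der_read (side_look s)]
  rintro ⟨q', h1, _⟩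
  exact absurd h1 (by simp [nxt])

theorem not_der_look_nil {s : Bool} (y : List Let) : ¬ Der (.look s) (asm s [] y) := by
  intro h
  rcases der_cases h with ⟨h1, _⟩ | ⟨b, q', w', h1, h2, h3⟩
  · exact absurd h1 (by simp)
  · have hb : b = .mid := by
      cases s
      · have h4 : y ++ [Let.mid] = w' ++ [b] := h3
        obtain ⟨_, h5⟩ := List.append_inj' h4 rfl
        rw [List.singleton_inj] at h5
        exact h5.symm
      · have h4 : Let.mid :: y.reverse = b :: w' := h3
        rw [List.cons.injEq] at h4
        exact h4.1.symm
    subst hb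
    exact absurd h1 (by simp [nxt])

theorem der_stop : ∀ {w : List Let}, Der .stop w ↔ ∀ a ∈ w, Pl a := by
  intro w
  induction w with
  | nil => exact ⟨fun _ a ha => absurd ha List.not_mem_nil, fun _ => der_stop_nil⟩
  | cons a w ih =>
    constructor
    · intro h
      rcases der_cases h with ⟨_, h2⟩ | ⟨b, q', w', h1, h2, h3⟩
      · exact absurd h2 (by simp)
      · have h4 : a :: w = b :: w' := h3
        rw [List.cons.injEq] at h4
        obtain ⟨rfl, rfl⟩ := h4
        have hpa : Pl a := by
          refine ⟨?_, ?_, ?_⟩ <;> rintro rfl <;> exact absurd h1 (by simp [nxt])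
        rw [nxt_stop hpa] at h1
        rw [← Option.some.inj h1] at h2
        intro b hb
        rcases List.mem_cons.1 hb with rfl | hb
        · exact hpa
        · exact ih.1 h2 b hb
    · intro h
      exact der_of (q := .stop) (nxt_stop (h a List.mem_cons_self))
        (ih.2 fun b hb => h b (List.mem_cons_of_mem _ hb))

theorem der_end {s : Bool} (y : List Let) :
    Der (.skip s) (asm s [] y) ↔ s = true ∧ ∀ a ∈ y, Pl a := by
  cases s
  · constructor
    · intro h
      exfalso
      rcases der_cases h with ⟨h1, _⟩ | ⟨b, q', w', h1, h2, h3⟩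
      · exact absurd h1 (by simp)
      · have h4 : y ++ [Let.mid] = w' ++ [b] := h3
        obtain ⟨_, h5⟩ := List.append_inj' h4 rfl
        rw [List.singleton_inj] at h5
        subst h5
        exact absurd h1 (by simp [nxt])
    · rintro ⟨h, _⟩
      exact absurd h (by simp)
  · constructor
    · intro h
      refine ⟨rfl, ?_⟩
      rcases der_cases h with ⟨h1, _⟩ | ⟨b, q', w', h1, h2, h3⟩
      · exact absurd h1 (by simp)
      · have h4 : Let.mid :: y.reverse = b :: w' := h3
        rw [List.cons.injEq] at h4
        obtain ⟨rfl, rfl⟩ := h4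
        have h5 : Sta.stop = q' := Option.some.inj h1
        rw [← h5, der_stop] at h2
        intro a ha
        exact h2 a (List.mem_reverse.2 ha)
    · rintro ⟨_, h⟩
      exact der_of (q := .skip true) (a := .mid) (q' := .stop) rfl
        (der_stop.2 fun a ha => h a (List.mem_reverse.1 ha))

/-- the comparison of two lists -/
theorem der_cmp {s : Bool} : ∀ (σ τ : List Bool) (x y : List Let),
    Der (.cmp s) (asm s (σ.map .bit ++ .sep :: x) (τ.map .bit ++ .fin :: y)) ↔
      σ = τ ∧ Der (.skip !s) (asm (!s) y x) := by
  intro σ
  induction σ with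
  | nil =>
    intro τ x y
    rw [List.map_nil, List.nil_append, der_read (side_cmp s)]
    have e1 : nxt (.cmp s) .sep = some (.cmps s) := rfl
    rw [e1]
    cases τ with
    | nil =>
      rw [List.map_nil, List.nil_append]
      constructor
      · rintro ⟨q', h1, h2⟩
        rw [← Option.some.inj h1, ← asm_swap, der_read (side_cmps s)] at h2
        obtain ⟨q'', h3, h4⟩ := h2
        have h5 : Sta.skip (!s) = q'' := Option.some.inj h3
        rw [← h5] at h4
        exact ⟨rfl, h4⟩
      · rintro ⟨_, h⟩
        refine ⟨_, rfl, ?_⟩
        rw [← asm_swap, der_read (side_cmps s)]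
        exact ⟨_, rfl, h⟩
    | cons c τ =>
      rw [List.map_cons, List.cons_append]
      constructor
      · rintro ⟨q', h1, h2⟩
        exfalso
        rw [← Option.some.inj h1, ← asm_swap, der_read (side_cmps s)] at h2
        obtain ⟨q'', h3, _⟩ := h2
        exact absurd h3 (by simp [nxt])
      · rintro ⟨h, _⟩
        exact absurd h (by simp)
  | cons b σ ih =>
    intro τ x y
    rw [List.map_cons, List.cons_append, der_read (side_cmp s)]
    have e1 : nxt (.cmp s) (.bit b) = some (.cmpb s b) := rfl
    rw [e1]
    cases τ with
    | nil =>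
      rw [List.map_nil, List.nil_append]
      constructor
      · rintro ⟨q', h1, h2⟩
        exfalso
        rw [← Option.some.inj h1, ← asm_swap, der_read (side_cmpb s b)] at h2
        obtain ⟨q'', h3, _⟩ := h2
        exact absurd h3 (by simp [nxt])
      · rintro ⟨h, _⟩
        exact absurd h (by simp)
    | cons c τ =>
      rw [List.map_cons, List.cons_append]
      have e2 : nxt (.cmpb s b) (.bit c) = if b = c then some (.cmp s) else none := rfl
      constructor
      · rintro ⟨q', h1, h2⟩
        rw [← Option.some.inj h1, ← asm_swap, der_read (side_cmpb s b)] at h2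
        obtain ⟨q'', h3, h4⟩ := h2
        rw [e2] at h3
        by_cases hbc : b = c
        · rw [if_pos hbc] at h3
          rw [← Option.some.inj h3, asm_swap, ih] at h4
          exact ⟨by rw [hbc, h4.1], h4.2⟩
        · rw [if_neg hbc] at h3
          exact absurd h3 (by simp)
      · rintro ⟨h, h'⟩
        rw [List.cons.injEq] at h
        refine ⟨_, rfl, ?_⟩
        rw [← asm_swap, der_read (side_cmpb s b), e2, if_pos h.1]
        refine ⟨_, rfl, ?_⟩
        rw [asm_swap, ih]
        exact ⟨h.2, h'⟩

end Pool.Agent.TH679.LW
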