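import Pool.Agent.TH679.LW.Pat
import Pool.Agent.TH679.LW.Grammar

/-!
Chains of blocks, alternately on the left side and on the right side
-/

set_option autoImplicit false

namespace Pool.Agent.TH679.LW

open Pool.Agent.TH679.CF (Blk bt pick bt_pick map_bt_pick cv)

section Blocks

variable {Y : Type}

/-- the text of a list of names -/
def bits (f : ℕ → Bool) (l : List ℕ) : List Let := (l.map f).map Let.bit

/-- the text of an option -/
def code (B : Blk Y) (X : Finset ℕ) : List Let :=
  bits (bt X) B.pops ++ .sep :: (bits (bt X) B.res ++ [.fin])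

theorem bits_pl (f : ℕ → Bool) (l : List ℕ) : ∀ a ∈ bits f l, Pl a := by
  intro a ha
  unfold bits at ha
  rw [List.mem_map] at ha
  obtain ⟨b, _, rfl⟩ := ha
  exact ⟨by simp, by simp, by simp⟩

theorem code_pl (B : Blk Y) (X : Finset ℕ) : ∀ a ∈ code B X, Pl a := by
  intro a ha
  unfold code at ha
  rw [List.mem_append, List.mem_cons, List.mem_append, List.mem_singleton] at ha
  rcases ha with ha | rfl | ha | rfl
  · exact bits_pl _ _ a ha
  · exact ⟨by simp, by simp, by simp⟩
  · exact bits_pl _ _ a ha
  · exact ⟨by simp, by simp, by simp⟩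

/-- `yes` (with the variable `y`, if any) and `no` are allowed -/
def marker (y : Option Y) : Slot Let Y
  | .yes => some y
  | .no => some none
  | _ => none

theorem vr_no (y : Option Y) : vr (marker y) .no = [] := rfl

theorem vr_yes (y : Option Y) : vr (marker y) .yes = y.toList := rfl

/-- the pattern of an option -/
def optPat (B : Blk Y) (X : Finset ℕ) : List (Slot Let Y) :=
  marker (B.var X) :: (code B X).map forced

/-- the pattern of some options -/
def opts (B : Blk Y) (Os : List (Finset ℕ)) : List (Slot Let Y) := Os.flatMap (optPat B)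

/-- the text of options which are not chosen -/
def nw (B : Blk Y) (Os : List (Finset ℕ)) : List Let := Os.flatMap fun X => .no :: code B X

/-- the pattern of a block -/
noncomputable def blkPat (B : Blk Y) : List (Slot Let Y) :=
  forced .cls :: opts B B.all.powerset.toList

theorem marker_ne {y : Option Y} {a : Let} (h : marker y a ≠ none) : a = .yes ∨ a = .no := by
  cases a with
  | yes => exact Or.inl rfl
  | no => exact Or.inr rfl
  | _ => exact absurd rfl h

theorem al_opt_inv {B : Blk Y} {X : Finset ℕ} {w : List Let} (h : Al (optPat B X) w) :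
    w = .yes :: code B X ∨ w = .no :: code B X := by
  obtain ⟨a, v, rfl, h1, h2⟩ := h.cons_inv
  rw [al_forced_inv h2]
  rcases marker_ne h1 with rfl | rfl
  · exact Or.inl rfl
  · exact Or.inr rfl

theorem vars_opt_no (B : Blk Y) (X : Finset ℕ) : vars (optPat B X) (.no :: code B X) = [] := by
  show vr (marker (B.var X)) .no ++ vars ((code B X).map forced) (code B X) = []
  rw [vars_forced, vr_no]
  rfl

theorem vars_opt_yes (B : Blk Y) (X : Finset ℕ) :
    vars (optPat B X) (.yes :: code B X) = (B.var X).toList := by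
  show vr (marker (B.var X)) .yes ++ vars ((code B X).map forced) (code B X) = _
  rw [vars_forced, vr_yes, List.append_nil]

theorem al_opt_no (B : Blk Y) (X : Finset ℕ) : Al (optPat B X) (.no :: code B X) :=
  List.Forall₂.cons (by simp [marker]) (al_forced _)

theorem al_opt_yes (B : Blk Y) (X : Finset ℕ) : Al (optPat B X) (.yes :: code B X) :=
  List.Forall₂.cons (by simp [marker]) (al_forced _)

theorem al_nw (B : Blk Y) : ∀ Os : List (Finset ℕ), Al (opts B Os) (nw B Os) := by
  intro Os
  induction Os with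
  | nil => exact List.Forall₂.nil
  | cons X Os ih => exact (al_opt_no B X).append ih

theorem vars_nw (B : Blk Y) : ∀ Os : List (Finset ℕ), vars (opts B Os) (nw B Os) = [] := by
  intro Os
  induction Os with
  | nil => rfl
  | cons X Os ih =>
    show vars (optPat B X ++ opts B Os) ((.no :: code B X) ++ nw B Os) = []
    rw [vars_append _ _ _ _ (al_opt_no B X).length_eq, vars_opt_no, ih]
    rfl

theorem nw_pl (B : Blk Y) (Os : List (Finset ℕ)) : ∀ a ∈ nw B Os, Pl a := by
  intro a ha
  unfold nw at ha
  rw [List.mem_flatMap] at ha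
  obtain ⟨X, _, ha⟩ := ha
  rcases List.mem_cons.1 ha with rfl | ha
  · exact ⟨by simp, by simp, by simp⟩
  · exact code_pl B X a ha

theorem al_opts_letters {B : Blk Y} : ∀ {Os : List (Finset ℕ)} {u : List Let}, Al (opts B Os) u →
    ∀ a ∈ u, a ≠ .cls ∧ a ≠ .mid := by
  intro Os
  induction Os with
  | nil =>
    intro u h a ha
    rw [h.nil_inv] at ha
    exact absurd ha List.not_mem_nil
  | cons X Os ih =>
    intro u h a ha
    obtain ⟨u1, u2, rfl, h1, h2⟩ := Al.split (ss := optPat B X) (tt := opts B Os) h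
    rcases List.mem_append.1 ha with ha | ha
    · rcases al_opt_inv h1 with rfl | rfl
      · rcases List.mem_cons.1 ha with rfl | ha
        · exact ⟨by simp, by simp⟩
        · exact ⟨(code_pl B X a ha).2.1, (code_pl B X a ha).2.2⟩
      · rcases List.mem_cons.1 ha with rfl | ha
        · exact ⟨by simp, by simp⟩
        · exact ⟨(code_pl B X a ha).2.1, (code_pl B X a ha).2.2⟩
    · exact ih h2 a ha

theorem al_opts_pl {B : Blk Y} : ∀ {Os : List (Finset ℕ)} {u : List Let}, Al (opts B Os) u →
    (∀ a ∈ u, Pl a) → vars (opts B Os) u = [] := by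
  intro Os
  induction Os with
  | nil =>
    intro u h _
    rw [h.nil_inv]
    rfl
  | cons X Os ih =>
    intro u h hu
    obtain ⟨u1, u2, rfl, h1, h2⟩ := Al.split (ss := optPat B X) (tt := opts B Os) h
    have h3 : vars (opts B (X :: Os)) (u1 ++ u2) = vars (optPat B X) u1 ++ vars (opts B Os) u2 :=
      vars_append _ _ _ _ h1.length_eq
    rcases al_opt_inv h1 with rfl | rfl
    · exfalso
      exact (hu .yes (List.mem_append_left _ List.mem_cons_self)).1 rfl
    · rw [h3, vars_opt_no, ih h2 fun a ha => hu a (List.mem_append_right _ ha)]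
      rfl

/-- a text which starts a block, or is empty -/
def Hd (x : List Let) : Prop := x = [] ∨ ∃ v, x = .cls :: v

theorem look_inv {s : Bool} (B : Blk Y) : ∀ {Os : List (Finset ℕ)} {u x : List Let}
    {σ : List Bool} {y : List Let}, Al (opts B Os) u → Hd x →
    Der (.look s) (asm s (u ++ x) (σ.map .bit ++ .fin :: y)) →
    ∃ X ∈ Os, ∃ (O2 : List (Finset ℕ)) (u2 : List Let), Al (opts B O2) u2 ∧
      B.pops.map (bt X) = σ ∧ vars (opts B Os) u = (B.var X).toList ++ vars (opts B O2) u2 ∧
      Der (.skip !s) (asm (!s) y (bits (bt X) B.res ++ .fin :: (u2 ++ x))) := by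
  intro Os
  induction Os with
  | nil =>
    intro u x σ y hu hx h
    exfalso
    rw [hu.nil_inv, List.nil_append] at h
    rcases hx with rfl | ⟨v, rfl⟩
    · exact not_der_look_nil _ h
    · exact not_der_look_cls _ _ h
  | cons X Os ih =>
    intro u x σ y hu hx h
    obtain ⟨u1, u2, rfl, h1, h2⟩ := Al.split (ss := optPat B X) (tt := opts B Os) hu
    have h3 : vars (opts B (X :: Os)) (u1 ++ u2) = vars (optPat B X) u1 ++ vars (opts B Os) u2 :=
      vars_append _ _ _ _ h1.length_eq
    rcases al_opt_inv h1 with rfl | rfl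
    · rw [List.append_assoc, List.cons_append, der_yes] at h
      have e : code B X ++ (u2 ++ x) = (B.pops.map (bt X)).map .bit ++ .sep ::
          (bits (bt X) B.res ++ .fin :: (u2 ++ x)) := by
        unfold code bits
        simp
      rw [e, der_cmp] at h
      refine ⟨X, List.mem_cons_self, Os, u2, h2, h.1, ?_, h.2⟩
      rw [h3, vars_opt_yes]
    · rw [List.append_assoc, List.cons_append] at h
      have e : Let.no :: (code B X ++ (u2 ++ x)) = (Let.no :: code B X) ++ (u2 ++ x) := rfl
      rw [e, der_look] at h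
      · obtain ⟨X', hX', O2, u2', k1, k2, k3, k4⟩ := ih h2 hx h
        refine ⟨X', List.mem_cons_of_mem _ hX', O2, u2', k1, k2, ?_, k4⟩
        rw [h3, vars_opt_no, k3]
        rfl
      · intro a ha
        rcases List.mem_cons.1 ha with rfl | ha
        · exact ⟨by simp, by simp, by simp⟩
        · exact code_pl B X a ha

/-! ### chains -/

/-- the patterns of the two sides for a chain of blocks, the side of the first block coming
first -/
noncomputable def two : List (Blk Y) → List (Slot Let Y) × List (Slot Let Y)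
  | [] => ([], [])
  | B :: Bs => (blkPat B ++ (two Bs).2, (two Bs).1)

/-- the blocks fit together: each starts with the list of names with which the previous one ends -/
def Fit : List ℕ → List (Blk Y) → Prop
  | _, [] => True
  | N, B :: Bs => N = B.pops ∧ (∀ g ∈ B.pops, g ∈ B.all) ∧ (∀ g ∈ B.res, g ∈ B.all) ∧
      Fit B.res Bs

theorem blkPat_hd {B : Blk Y} {w x : List Let} (h : Al (blkPat B) w) : Hd (w ++ x) := by
  obtain ⟨a, v, rfl, h1, _⟩ := h.cons_inv
  rw [forced_ne h1]
  exact Or.inr ⟨_, rfl⟩

theorem two_hd : ∀ (Bs : List (Blk Y)), (∀ x, Al (two Bs).1 x → Hd x) ∧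
    ∀ x, Al (two Bs).2 x → Hd x := by
  intro Bs
  induction Bs with
  | nil => exact ⟨fun x hx => Or.inl hx.nil_inv, fun x hx => Or.inl hx.nil_inv⟩
  | cons B Bs ih =>
    refine ⟨?_, ih.1⟩
    intro x hx
    obtain ⟨u, v, rfl, h1, _⟩ := Al.split (ss := blkPat B) (tt := (two Bs).2) hx
    exact blkPat_hd h1

theorem exists_word (χ : ℕ → Bool) : ∀ (Bs : List (Blk Y)) (N : List ℕ) (s : Bool), Fit N Bs →
    (s = true ↔ Even Bs.length) →
    ∃ x y, Al (two Bs).1 x ∧ Al (two Bs).2 y ∧
      (vars (two Bs).1 x ++ vars (two Bs).2 y).Perm (cv Bs χ) ∧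
      ∀ r r' : List Let, (∀ a ∈ r, Pl a) → (∀ a ∈ r', Pl a) →
        Der (.skip s) (asm s (r ++ x) (bits χ N ++ .fin :: (r' ++ y))) := by
  intro Bs
  induction Bs with
  | nil =>
    intro N s _ hs
    refine ⟨[], [], List.Forall₂.nil, List.Forall₂.nil, List.Perm.refl _, ?_⟩
    intro r r' hr hr'
    rw [der_skip _ _ hr, der_end, List.append_nil]
    refine ⟨hs.2 ⟨0, rfl⟩, ?_⟩
    intro a ha
    rw [List.mem_append, List.mem_cons] at ha
    rcases ha with ha | rfl | ha
    · exact bits_pl _ _ a ha
    · exact ⟨by simp, by simp, by simp⟩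
    · exact hr' a ha
  | cons B Bs ih =>
    rintro N s ⟨rfl, h1, h2, h3⟩ hs
    have hs' : ((!s) = true ↔ Even Bs.length) := by
      rw [List.length_cons, Nat.even_add_one] at hs
      cases s
      · simp only [Bool.false_eq_true, false_iff, not_not] at hs
        simpa using hs
      · simp only [true_iff] at hs
        simpa using hs
    obtain ⟨x', y', a1, a2, a3, a4⟩ := ih B.res (!s) h3 hs'
    have hX' : pick χ B ∈ B.all.powerset.toList := by
      rw [Finset.mem_toList, Finset.mem_powerset]
      exact Finset.filter_subset _ _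
    obtain ⟨O1, O2, hO⟩ := List.append_of_mem hX'
    have hopts : opts B B.all.powerset.toList =
        opts B O1 ++ (optPat B (pick χ B) ++ opts B O2) := by
      rw [hO]
      unfold opts
      rw [List.flatMap_append, List.flatMap_cons]
    obtain ⟨w, hw⟩ : ∃ w, w = nw B O1 ++ ((.yes :: code B (pick χ B)) ++ nw B O2) := ⟨_, rfl⟩
    have hyes := al_opt_yes B (pick χ B)
    have hw1 : Al (opts B B.all.powerset.toList) w := by
      rw [hopts, hw]
      exact (al_nw B O1).append (hyes.append (al_nw B O2))
    have hw2 : vars (opts B B.all.powerset.toList) w = (B.var (pick χ B)).toList := by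
      rw [hopts, hw, vars_append _ _ _ _ (al_nw B O1).length_eq,
        vars_append _ _ _ _ hyes.length_eq, vars_nw, vars_nw, vars_opt_yes]
      simp
    have hw3 : Al (blkPat B) (.cls :: w) := List.Forall₂.cons (forced_self _) hw1
    have hw4 : vars (blkPat B) (.cls :: w) = (B.var (pick χ B)).toList := by
      show vr (forced Let.cls) Let.cls ++ vars (opts B B.all.powerset.toList) w = _
      rw [vr_forced, hw2]
      rfl
    refine ⟨(.cls :: w) ++ y', x', hw3.append a2, a1, ?_, ?_⟩
    · show (vars (blkPat B ++ (two Bs).2) ((.cls :: w) ++ y') ++ vars (two Bs).1 x').Perm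
        ((B.var (pick χ B)).toList ++ cv Bs χ)
      rw [vars_append _ _ _ _ hw3.length_eq, hw4, List.append_assoc]
      refine List.Perm.append_left _ ?_
      exact List.perm_append_comm.trans a3
    · intro r r' hr hr'
      rw [der_skip _ _ hr, List.cons_append, der_cls, hw, List.append_assoc,
        der_look _ _ (nw_pl B O1), List.append_assoc, List.cons_append, der_yes]
      have e : code B (pick χ B) ++ (nw B O2 ++ y') =
          (B.pops.map (bt (pick χ B))).map .bit ++ .sep ::
            (bits (bt (pick χ B)) B.res ++ .fin :: (nw B O2 ++ y')) := by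
        unfold code bits
        simp
      have e2 : bits χ B.pops = (B.pops.map χ).map .bit := rfl
      rw [e, e2, der_cmp, map_bt_pick χ B h1]
      refine ⟨rfl, ?_⟩
      have e3 : bits (bt (pick χ B)) B.res = bits χ B.res := by
        unfold bits
        rw [map_bt_pick χ B h2]
      rw [e3]
      exact a4 r' (nw B O2) hr' (nw_pl B O2)

theorem word_inv : ∀ (Bs : List (Blk Y)) (N : List ℕ) (s : Bool) (U : Set ℕ) (χ₀ : ℕ → Bool)
    (x y r r' : List Let), Fit N Bs → Pool.Agent.TH679.CF.Fr U Bs → (∀ g ∈ N, g ∈ U) →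
    Al (two Bs).1 x → Al (two Bs).2 y →
    (∀ a ∈ r, a ≠ .cls ∧ a ≠ .mid) → (∀ a ∈ r', a ≠ .cls ∧ a ≠ .mid) →
    Der (.skip s) (asm s (r ++ x) (bits χ₀ N ++ .fin :: (r' ++ y))) →
    ∃ χ : ℕ → Bool, (∀ g ∈ U, χ g = χ₀ g) ∧ (∀ a ∈ r, Pl a) ∧ (∀ a ∈ r', Pl a) ∧
      (vars (two Bs).1 x ++ vars (two Bs).2 y).Perm (cv Bs χ) := by
  intro Bs
  induction Bs with
  | nil =>
    intro N s U χ₀ x y r r' _ _ _ hx hy hr hr' h
    obtain ⟨h1, h2⟩ := der_skip_inv _ _ hr h
    rw [hx.nil_inv, der_end] at h2
    refine ⟨χ₀, fun _ _ => rfl, h1, ?_, ?_⟩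
    · intro a ha
      refine h2.2 a ?_
      rw [List.mem_append, List.mem_cons, List.mem_append]
      exact Or.inr (Or.inr (Or.inl ha))
    · rw [hx.nil_inv, hy.nil_inv]
      exact List.Perm.refl _
  | cons B Bs ih =>
    rintro N s U χ₀ x y r r' ⟨rfl, h1, h2, h3⟩ ⟨f1, f2⟩ hN hx hy hr hr' h
    obtain ⟨u, v, rfl, hu, hv⟩ := Al.split (ss := blkPat B) (tt := (two Bs).2) hx
    obtain ⟨a, u', rfl, hu1, hu2⟩ := hu.cons_inv
    have hcls := forced_ne hu1
    subst hcls
    obtain ⟨g1, g2⟩ := der_skip_inv _ _ hr h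
    rw [List.cons_append, der_cls] at g2
    obtain ⟨X, hX, O2, u2, k1, k2, k3, k4⟩ := look_inv B hu2 ((two_hd Bs).2 v hv) g2
    rw [Finset.mem_toList, Finset.mem_powerset] at hX
    obtain ⟨χ₁, hχ₁⟩ : ∃ χ₁ : ℕ → Bool, ∀ g, χ₁ g = if g ∈ B.all then bt X g else χ₀ g :=
      ⟨_, fun _ => rfl⟩
    have m1 : ∀ g ∈ U, χ₁ g = χ₀ g := by
      intro g hg
      rw [hχ₁]
      split_ifs with hgB
      · rcases f1 g hgB with h4 | h4
        · exact List.map_inj_left.1 k2 g h4
        · exact absurd hg h4
      · rfl
    have m2 : pick χ₁ B = X := by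
      ext g
      unfold pick
      rw [Finset.mem_filter, hχ₁]
      constructor
      · rintro ⟨h4, h5⟩
        rw [if_pos h4] at h5
        exact of_decide_eq_true h5
      · intro h4
        refine ⟨hX h4, ?_⟩
        rw [if_pos (hX h4)]
        exact decide_eq_true h4
    have m3 : bits (bt X) B.res = bits χ₁ B.res := by
      unfold bits
      rw [← m2, map_bt_pick χ₁ B h2]
    rw [m3] at k4
    obtain ⟨χ, n1, n2, n3, n4⟩ := ih B.res (!s) (U ∪ {g | g ∈ B.all}) χ₁ y v r' u2 h3 f2
      (fun g hg => Or.inr (h2 g hg)) hy hv hr' (al_opts_letters k1) k4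
    refine ⟨χ, fun g hg => (n1 g (Or.inl hg)).trans (m1 g hg), g1, n2, ?_⟩
    have m4 : pick χ B = X := by
      rw [← m2]
      unfold pick
      refine Finset.filter_congr fun g hg => ?_
      rw [n1 g (Or.inr hg)]
    have m5 : vars (blkPat B) (.cls :: u') = (B.var X).toList := by
      show vr (forced Let.cls) Let.cls ++ vars (opts B B.all.powerset.toList) u' = _
      rw [vr_forced, k3, al_opts_pl k1 n3]
      simp
    show (vars (blkPat B ++ (two Bs).2) ((.cls :: u') ++ v) ++ vars (two Bs).1 y).Perm
        ((B.var (pick χ B)).toList ++ cv Bs χ)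
    rw [vars_append _ _ _ _ hu.length_eq, m5, m4, List.append_assoc]
    refine List.Perm.append_left _ ?_
    exact List.perm_append_comm.trans n4

end Blocks

end Pool.Agent.TH679.LW
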