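import Pool.Agent.TH679.LW.Strip
import Pool.Agent.TH679.CF.Laws

/-!
The lower bound for the linear language
-/

set_option autoImplicit false

namespace Pool.Agent.TH679.LW

open Finset
open scoped NNReal
open Pool.Agent.H564R3.PW (Instr runs exec syms)
open Pool.Agent.H564R3.TS
open Pool.Agent.TH679.SP (Pos lft rgt ce cset mem_cset)
open Pool.Agent.TH679.TG (sub img Ok syms_sub)
open Pool.Agent.TH679.PL (kap kap_ge clog_le_logb)
open Pool.Agent.TH679.CF (fam mem_fam SolvesMin SolvesSum good_min good_sum good_len cv col)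

/-- the pattern with `k` additional letters -/
noncomputable def padded (S d k : ℕ) : List (Slot Let (Pos S × Fin 2 × Fin 2)) :=
  (List.replicate k Let.no).map forced ++
    ((two (full S d)).1 ++ (([Let.mid]).map forced ++
      ((two (full S d)).2.reverse ++ ([Let.fin]).map forced)))

theorem padded_length (S d k : ℕ) : (padded S d k).length =
    k + ((two (full S d)).1.length + (two (full S d)).2.length) + 2 := by
  unfold padded
  simp
  ring

theorem pl_replicate (k : ℕ) : ∀ a ∈ List.replicate k Let.no, Pl a := by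
  intro a ha
  rw [List.eq_of_mem_replicate ha]
  exact ⟨by simp, by simp, by simp⟩

theorem word_eq (x y : List Let) (k : ℕ) :
    asm true (List.replicate k Let.no ++ x) ([] ++ Let.fin :: ([] ++ y)) =
      List.replicate k Let.no ++ (x ++ ([Let.mid] ++ (y.reverse ++ [Let.fin]))) := by
  unfold asm
  rw [if_pos rfl]
  simp

theorem vars_padded {S d k : ℕ} {x y : List Let} (hx : Al (two (full S d)).1 x)
    (hy : Al (two (full S d)).2 y) :
    (vars (padded S d k)
      (List.replicate k Let.no ++ (x ++ ([Let.mid] ++ (y.reverse ++ [Let.fin]))))).Perm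
      (vars (two (full S d)).1 x ++ vars (two (full S d)).2 y) := by
  unfold padded
  rw [vars_append _ _ _ _ (by simp), vars_forced, List.nil_append,
    vars_append _ _ _ _ hx.length_eq, vars_append _ _ _ _ (by simp), vars_forced,
    List.nil_append, vars_append _ _ _ _ hy.rev.length_eq, vars_forced, List.append_nil]
  exact List.Perm.append_left _ (vars_rev hy)

theorem padded_word {S d k : ℕ} (χ : ℕ → Bool) :
    ∃ w, Al (padded S d k) w ∧ w ∈ gram.language ∧
      (vars (padded S d k) w).Perm (cv (full S d) χ) := by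
  obtain ⟨x, y, h1, h2, h3, h4⟩ := exists_word χ (full S d) [] true fit_full (by
    rw [full_length]
    exact ⟨fun _ => ⟨S + 1, by ring⟩, fun _ => rfl⟩)
  refine ⟨_, ?_, ?_, (vars_padded h1 h2).trans h3⟩
  · exact (al_forced _).append (h1.append ((al_forced [Let.mid]).append
      (h2.rev.append (al_forced [Let.fin]))))
  · have h5 := h4 (List.replicate k Let.no) [] (pl_replicate k) (by simp)
    rw [← word_eq]
    exact h5

theorem padded_inv {S d k : ℕ} {w : List Let} (hw : Al (padded S d k) w)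
    (hL : w ∈ gram.language) : ∃ χ : ℕ → Bool, (vars (padded S d k) w).Perm (cv (full S d) χ) := by
  have hw' := hw
  unfold padded at hw'
  obtain ⟨r, w1, e1, a1, a2⟩ := Al.split hw'
  obtain ⟨x, w2, e2, a3, a4⟩ := Al.split a2
  obtain ⟨m, w3, e3, a5, a6⟩ := Al.split a4
  obtain ⟨z, f, e4, a7, a8⟩ := Al.split a6
  have hr := al_forced_inv a1
  have hm := al_forced_inv a5
  have hf := al_forced_inv a8
  have hz : Al (two (full S d)).2 z.reverse := by
    have := a7.rev
    rwa [List.reverse_reverse] at this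
  have e : w = List.replicate k Let.no ++ (x ++ ([Let.mid] ++ (z.reverse.reverse ++ [Let.fin]))) := by
    rw [e1, e2, e3, e4, hr, hm, hf, List.reverse_reverse]
  have hD : Der (.skip true) w := hL
  rw [e, ← word_eq] at hD
  obtain ⟨χ, _, _, _, h4⟩ := word_inv (full S d) [] true ∅ (fun _ => false) x z.reverse
    (List.replicate k Let.no) [] fit_full fr_full (by simp) a3 hz
    (fun a ha => ⟨(pl_replicate k a ha).2.1, (pl_replicate k a ha).2.2⟩) (by simp) hD
  refine ⟨χ, ?_⟩
  rw [e]
  exact (vars_padded a3 hz).trans h4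

theorem law {R ρ : Type} [Semiring R] [Nontrivial R] [Fintype ρ] [DecidableEq ρ] {S d q n : ℕ}
    (hd : 1 ≤ d) (hS : 4 * d * d * q ≤ S)
    (hn : (2 * S + 2) * (1 + 2 ^ (d + 1) * (2 * d + 4)) + 2 ≤ n)
    (p : List (Instr R (Fin n × Let) ρ)) (o : ρ)
    (g1 : ∀ A ∈ fam (Γ := Let) gram.language n, ind A ∈ syms p o)
    (g2 : ∀ u ∈ syms p o, ∃ A ∈ fam (Γ := Let) gram.language n, ∀ x ∈ A, u x ≠ 0)
    (hp : 1 ≤ p.length) :
    (2 ^ d) ^ kap q ≤ 2 * p.length * ((Nat.clog 2 p.length + 1) * Fintype.card ρ) ^ kap q := by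
  classical
  obtain ⟨k, hk⟩ : ∃ k, k = n - ((two (full S d)).1.length + (two (full S d)).2.length) - 2 :=
    ⟨_, rfl⟩
  obtain ⟨l, hl⟩ : ∃ l, l = padded S d k := ⟨_, rfl⟩
  have hln : l.length = n := by
    rw [hl, padded_length]
    have := two_full_le S d
    omega
  subst hln
  have hlen : (p.map (sub (R := R) (ρ := ρ) fun x : Fin l.length × Let =>
    l.get x.1 x.2)).length = p.length := List.length_map ..
  rw [← hlen]
  have key := transfer (A := gram.language) l
    (univ.image (cset (m := 2) (lft (S := S) hd) (rgt hd))) (by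
      intro C hC
      rw [mem_image] at hC
      obtain ⟨χ', _, rfl⟩ := hC
      obtain ⟨χ, hχ⟩ : ∃ χ : ℕ → Bool, ∀ a, χ a =
          if ha : a < S + d then decide (χ' ⟨a, ha⟩ = 1) else false := ⟨_, fun _ => rfl⟩
      have hcol : (fun a : Fin (S + d) => col (χ a.val)) = χ' := by
        funext a
        rw [hχ, dif_pos a.2]
        show col (decide (χ' a = 1)) = χ' a
        generalize χ' a = z
        fin_cases z <;> rfl
      obtain ⟨w, a1, a2, a3⟩ := padded_word (S := S) (d := d) (k := k) χ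
      rw [← hl] at a1 a3
      refine ⟨w, a1, a2, ?_⟩
      intro y
      have hc := count_cv (S := S) hd χ y
      rw [hcol] at hc
      refine Eq.trans ?_ (((a3.count_eq y).trans hc).trans ?_)
      · congr 1
        exact lawful_beq_subsingleton _ _
      · simp only [mem_cset]) (by
      intro w hAl hw
      rw [hl] at hAl
      obtain ⟨χ, hχ⟩ := padded_inv hAl hw
      rw [← hl] at hχ
      refine ⟨_, mem_image_of_mem _ (mem_univ (fun a => col (χ a.val))), ?_⟩
      intro y hy
      rw [mem_cset] at hy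
      have h1 : (cv (full S d) χ).count y = 1 := by
        rw [count_cv hd, if_pos hy]
      rw [hχ.mem_iff]
      exact List.count_pos_iff.1 (by omega)) p o g1 g2
  exact Pool.Agent.TH679.SP.law (S := S) (d := d) (m := 2) (n := q) (by norm_num) hd hS
    (p.map (sub fun x => l.get x.1 x.2)) o key.1 key.2 (by rw [hlen]; exact hp)

theorem fam_nonempty {S d n : ℕ}
    (hn : (2 * S + 2) * (1 + 2 ^ (d + 1) * (2 * d + 4)) + 2 ≤ n) :
    (fam (Γ := Let) gram.language n).Nonempty := by
  obtain ⟨k, hk⟩ : ∃ k, k = n - ((two (full S d)).1.length + (two (full S d)).2.length) - 2 :=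
    ⟨_, rfl⟩
  obtain ⟨w, h1, h2, _⟩ := padded_word (S := S) (d := d) (k := k) (fun _ => false)
  have hwl : w.length = n := by
    rw [← h1.length_eq, padded_length]
    have := two_full_le S d
    omega
  subst hwl
  exact ⟨_, mem_fam.2 ⟨fun i => w.get i, by rw [List.ofFn_get]; exact h2, rfl⟩⟩

theorem size_le {d q n : ℕ} (hd : 1 ≤ d) (hq : 1 ≤ q) (hn : 140 * d ^ 3 * q * 2 ^ d ≤ n) :
    (2 * (4 * d * d * q) + 2) * (1 + 2 ^ (d + 1) * (2 * d + 4)) + 2 ≤ n := by
  refine le_trans ?_ hn
  obtain ⟨P, hP⟩ : ∃ P, P = 2 ^ d := ⟨_, rfl⟩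
  have hP1 : 2 ≤ P := by
    rw [hP]
    calc 2 = 2 ^ 1 := rfl
      _ ≤ 2 ^ d := Nat.pow_le_pow_right (by norm_num) hd
  have e1 : 2 ^ (d + 1) = 2 * P := by rw [hP, pow_succ]; ring
  rw [e1, ← hP]
  have h2 : 1 ≤ d * d := Nat.mul_pos hd hd
  have h3 : 1 ≤ d * d * q := Nat.mul_pos h2 hq
  have a1 : 2 * (4 * d * d * q) + 2 ≤ 10 * (d * d * q) := by nlinarith
  have a2 : 1 + 2 * P * (2 * d + 4) ≤ 13 * (d * P) := by nlinarith
  have a3 := Nat.mul_le_mul a1 a2
  have a4 : 1 ≤ d * d * q * (d * P) := Nat.mul_pos h3 (Nat.mul_pos hd (by omega))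
  have e2 : 10 * (d * d * q) * (13 * (d * P)) = 130 * (d * d * q * (d * P)) := by ring
  have e3 : 140 * d ^ 3 * q * P = 140 * (d * d * q * (d * P)) := by ring
  rw [e3]
  omega

theorem lawMin {d q n : ℕ} (hd : 1 ≤ d) (hq : 1 ≤ q) (hn : 140 * d ^ 3 * q * 2 ^ d ≤ n)
    {ρ : Type} [Fintype ρ] [DecidableEq ρ]
    (p : List (Instr (Tropical (WithTop ℝ)) (Fin n × Let) ρ)) (o : ρ)
    (hs : SolvesMin (Γ := Let) gram.language n p o) : 1 ≤ p.length ∧ (2 ^ d) ^ kap q ≤
      2 * p.length * ((Nat.clog 2 p.length + 1) * Fintype.card ρ) ^ kap q := by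
  have hn' := size_le hd hq hn
  have hne := fam_nonempty hn'
  obtain ⟨g1, g2⟩ := good_min hne hs
  have hp := good_len hne g1
  exact ⟨hp, law hd le_rfl hn' p o g1 g2 hp⟩

theorem lawSum {d q n : ℕ} (hd : 1 ≤ d) (hq : 1 ≤ q) (hn : 140 * d ^ 3 * q * 2 ^ d ≤ n)
    {ρ : Type} [Fintype ρ] [DecidableEq ρ]
    (p : List (Instr ℝ≥0 (Fin n × Let) ρ)) (o : ρ)
    (hs : SolvesSum (Γ := Let) gram.language n p o) : 1 ≤ p.length ∧ (2 ^ d) ^ kap q ≤
      2 * p.length * ((Nat.clog 2 p.length + 1) * Fintype.card ρ) ^ kap q := by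
  have hn' := size_le hd hq hn
  obtain ⟨g1, g2⟩ := good_sum hs
  have hp := good_len (fam_nonempty hn') g1
  exact ⟨hp, law hd le_rfl hn' p o g1 g2 hp⟩

end Pool.Agent.TH679.LW
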