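import Pool.Agent.TH679.CF.Laws
import Pool.Agent.H822R5.LN.Defs

/-!
Programs which compute, again and again, new values from old values by sums of products
-/

set_option autoImplicit false
set_option linter.unusedSectionVars false

namespace Pool.Agent.TH679.LW

open Finset
open Pool.Agent.H564R3.PW (Instr runs exec)

section Row

variable {R X I : Type} [CommSemiring R] [DecidableEq I]

/-- the registers: two for each index, and four others -/
abbrev Reg (I : Type) : Type := (Bool × I) ⊕ Fin 4

/-- the new value -/
def nw' (a : I) : Reg I := Sum.inl (true, a)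
/-- the old value -/
def od' (a : I) : Reg I := Sum.inl (false, a)
/-- the accumulator -/
def acc : Reg I := Sum.inr 0
/-- the product -/
def tmp : Reg I := Sum.inr 1
/-- the factor -/
def aux : Reg I := Sum.inr 2
/-- the register which always contains 0 -/
def zer : Reg I := Sum.inr 3

theorem runs_app (w : X → R) (p q : List (Instr R X (Reg I))) (v : Reg I → R) :
    runs w (p ++ q) v = runs w q (runs w p v) := by
  unfold runs
  rw [List.foldl_append]

/-- the value of a term: the product of an old value (or 1) with some variables -/
def tv (w : X → R) (v : I → R) (t : List X × Option I) : R :=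
  (match t.2 with
    | some b => v b
    | none => 1) * (t.1.map w).prod

/-- the instructions for the variables of a term -/
def lprog : List X → List (Instr R X (Reg I))
  | [] => []
  | x :: xs => .load aux x :: .mul tmp tmp aux :: lprog xs

/-- the instructions for a term -/
def tprog (t : List X × Option I) : List (Instr R X (Reg I)) :=
  (match t.2 with
    | some b => .add tmp (od' b) zer
    | none => .const tmp 1) :: (lprog t.1 ++ [.add acc acc tmp])

theorem lprog_length (xs : List X) : (lprog (R := R) (I := I) xs).length = 2 * xs.length := by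
  induction xs with
  | nil => rfl
  | cons x xs ih =>
    rw [lprog, List.length_cons, List.length_cons, List.length_cons, ih]
    ring

theorem tprog_length (t : List X × Option I) :
    (tprog (R := R) t).length = 2 * t.1.length + 2 := by
  unfold tprog
  rw [List.length_cons, List.length_append, lprog_length]
  rfl

theorem lprog_run (w : X → R) : ∀ (xs : List X) (v : Reg I → R),
    (∀ x, runs w (lprog xs) v (Sum.inl x) = v (Sum.inl x)) ∧
    runs w (lprog xs) v zer = v zer ∧ runs w (lprog xs) v acc = v acc ∧
    runs w (lprog xs) v tmp = v tmp * (xs.map w).prod := by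
  intro xs
  induction xs with
  | nil => intro v; exact ⟨fun _ => rfl, rfl, rfl, by simp [lprog, runs]⟩
  | cons x xs ih =>
    intro v
    obtain ⟨v₁, hv₁⟩ : ∃ v₁, v₁ = Function.update (Function.update v aux (w x)) tmp
        ((Function.update v aux (w x)) tmp * (Function.update v aux (w x)) aux) := ⟨_, rfl⟩
    have e : runs w (lprog (x :: xs)) v = runs w (lprog xs) v₁ := by
      rw [hv₁]
      rfl
    obtain ⟨h1, h2, h3, h4⟩ := ih v₁
    rw [e]
    refine ⟨fun y => ?_, ?_, ?_, ?_⟩
    · rw [h1, hv₁, Function.update_of_ne (by simp [tmp]), Function.update_of_ne (by simp [aux])]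
    · rw [h2, hv₁, Function.update_of_ne (by simp [tmp, zer]),
        Function.update_of_ne (by simp [aux, zer])]
    · rw [h3, hv₁, Function.update_of_ne (by simp [tmp, acc]),
        Function.update_of_ne (by simp [aux, acc])]
    · rw [h4, hv₁, Function.update_self, Function.update_self,
        Function.update_of_ne (by simp [aux, tmp]), List.map_cons, List.prod_cons, mul_assoc]

theorem tprog_run (w : X → R) (t : List X × Option I) (v : Reg I → R) (hz : v zer = 0) :
    (∀ x, runs w (tprog t) v (Sum.inl x) = v (Sum.inl x)) ∧ runs w (tprog t) v zer = 0 ∧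
    runs w (tprog t) v acc = v acc + tv w (fun b => v (od' b)) t := by
  obtain ⟨c, hc⟩ : ∃ c, c = (match t.2 with
    | some b => v (od' b)
    | none => (1 : R)) := ⟨_, rfl⟩
  have e : runs w (tprog t) v = runs w [.add acc acc tmp]
      (runs w (lprog t.1) (Function.update v tmp c)) := by
    rw [← runs_app, hc]
    unfold tprog
    rcases t with ⟨xs, _ | b⟩
    · rfl
    · show runs w (lprog xs ++ [.add acc acc tmp]) (Function.update v tmp (v (od' b) + v zer)) = _
      rw [hz, add_zero]
  obtain ⟨h1, h2, h3, h4⟩ := lprog_run w t.1 (Function.update v tmp c)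
  obtain ⟨v₂, hv₂⟩ : ∃ v₂, v₂ = runs w (lprog t.1) (Function.update v tmp c) := ⟨_, rfl⟩
  rw [← hv₂] at e h1 h2 h3 h4
  have e' : runs w (tprog t) v = Function.update v₂ acc (v₂ acc + v₂ tmp) := e
  rw [e']
  refine ⟨fun x => ?_, ?_, ?_⟩
  · rw [Function.update_of_ne (by simp [acc]), h1, Function.update_of_ne (by simp [tmp])]
  · rw [Function.update_of_ne (by simp [acc, zer]), h2, Function.update_of_ne (by simp [tmp, zer]),
      hz]
  · rw [Function.update_self, h3, h4, Function.update_self,
      Function.update_of_ne (by simp [tmp, acc])]
    unfold tv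
    rw [hc]

/-- the instructions for a list of terms -/
def cprog (ts : List (List X × Option I)) : List (Instr R X (Reg I)) := ts.flatMap tprog

theorem cprog_run (w : X → R) : ∀ (ts : List (List X × Option I)) (v : Reg I → R), v zer = 0 →
    (∀ x, runs w (cprog ts) v (Sum.inl x) = v (Sum.inl x)) ∧ runs w (cprog ts) v zer = 0 ∧
    runs w (cprog ts) v acc = v acc + (ts.map (tv w fun b => v (od' b))).sum := by
  intro ts
  induction ts with
  | nil => intro v hz; exact ⟨fun _ => rfl, hz, by simp [cprog, runs]⟩
  | cons t ts ih =>
    intro v hz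
    have e : runs w (cprog (t :: ts)) v = runs w (cprog ts) (runs w (tprog t) v) := by
      rw [← runs_app]
      rfl
    obtain ⟨h1, h2, h3⟩ := tprog_run w t v hz
    obtain ⟨k1, k2, k3⟩ := ih _ h2
    rw [e]
    refine ⟨fun x => by rw [k1, h1], k2, ?_⟩
    have e2 : (fun b : I => runs w (tprog t) v (od' b)) = fun b => v (od' b) := by
      funext b
      exact h1 _
    rw [k3, h3, e2, List.map_cons, List.sum_cons, add_assoc]

/-- the instructions for a new value -/
def vprog (a : I) (ts : List (List X × Option I)) : List (Instr R X (Reg I)) :=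
  .const acc 0 :: (cprog ts ++ [.add (nw' a) acc zer])

theorem vprog_run (w : X → R) (a : I) (ts : List (List X × Option I)) (v : Reg I → R)
    (hz : v zer = 0) :
    (∀ x, runs w (vprog a ts) v (Sum.inl x) =
      if x = (true, a) then (ts.map (tv w fun b => v (od' b))).sum else v (Sum.inl x)) ∧
    runs w (vprog a ts) v zer = 0 := by
  obtain ⟨v₁, hv₁⟩ : ∃ v₁, v₁ = Function.update v acc 0 := ⟨_, rfl⟩
  have e : runs w (vprog a ts) v = runs w [.add (nw' a) acc zer] (runs w (cprog ts) v₁) := by
    rw [← runs_app, hv₁]
    rfl
  have hz1 : v₁ zer = 0 := by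
    rw [hv₁, Function.update_of_ne (by simp [acc, zer])]
    exact hz
  have hl1 : ∀ x, v₁ (Sum.inl x) = v (Sum.inl x) := by
    intro x
    rw [hv₁, Function.update_of_ne (by simp [acc])]
  obtain ⟨h1, h2, h3⟩ := cprog_run w ts v₁ hz1
  obtain ⟨v₂, hv₂⟩ : ∃ v₂, v₂ = runs w (cprog ts) v₁ := ⟨_, rfl⟩
  rw [← hv₂] at e h1 h2 h3
  have e' : runs w (vprog a ts) v = Function.update v₂ (nw' a) (v₂ acc + v₂ zer) := e
  have hacc : v₂ acc = (ts.map (tv w fun b => v (od' b))).sum := by
    have e2 : (fun b : I => v₁ (od' b)) = fun b => v (od' b) := by
      funext b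
      exact hl1 _
    rw [h3, e2, hv₁, Function.update_self, zero_add]
  rw [e', hacc, h2, add_zero]
  constructor
  · intro x
    by_cases hx : x = (true, a)
    · rw [if_pos hx, hx]
      exact Function.update_self ..
    · rw [if_neg hx, Function.update_of_ne (by
        unfold nw'
        intro h
        exact hx (Sum.inl.inj h)), h1, hl1]
  · rw [Function.update_of_ne (by simp [nw', zer]), h2]

/-- the instructions for all new values of a list -/
def aprog (T : I → List (List X × Option I)) (l : List I) : List (Instr R X (Reg I)) :=
  l.flatMap fun a => vprog a (T a)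

theorem aprog_run (w : X → R) (T : I → List (List X × Option I)) : ∀ (l : List I)
    (v : Reg I → R), v zer = 0 →
    (∀ b, runs w (aprog T l) v (od' b) = v (od' b)) ∧ runs w (aprog T l) v zer = 0 ∧
    ∀ b, runs w (aprog T l) v (nw' b) =
      if b ∈ l then ((T b).map (tv w fun b => v (od' b))).sum else v (nw' b) := by
  intro l
  induction l with
  | nil => intro v hz; exact ⟨fun _ => rfl, hz, fun b => by simp [aprog, runs]⟩
  | cons a l ih =>
    intro v hz
    have e : runs w (aprog T (a :: l)) v = runs w (aprog T l) (runs w (vprog a (T a)) v) := by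
      rw [← runs_app]
      rfl
    obtain ⟨h1, h2⟩ := vprog_run w a (T a) v hz
    obtain ⟨k1, k2, k3⟩ := ih _ h2
    have h3 : ∀ b, runs w (vprog a (T a)) v (od' b) = v (od' b) := by
      intro b
      unfold od'
      rw [h1, if_neg (by simp)]
    rw [e]
    refine ⟨fun b => by rw [k1, h3], k2, fun b => ?_⟩
    have e2 : (fun b : I => runs w (vprog a (T a)) v (od' b)) = fun b => v (od' b) := by
      funext b
      exact h3 b
    rw [k3, e2]
    by_cases hb : b ∈ l
    · rw [if_pos hb, if_pos (List.mem_cons_of_mem _ hb)]
    · rw [if_neg hb]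
      unfold nw'
      rw [h1]
      by_cases hba : b = a
      · rw [if_pos (by rw [hba]), if_pos (by rw [hba]; exact List.mem_cons_self), hba]
      · rw [if_neg (by
          intro h
          exact hba (Prod.mk.inj h).2), if_neg (by
          intro h
          rcases List.mem_cons.1 h with h | h
          · exact hba h
          · exact hb h)]

/-- the instructions which copy the new values of a list -/
def copy (l : List I) : List (Instr R X (Reg I)) := l.map fun a => .add (od' a) (nw' a) zer

theorem copy_run (w : X → R) : ∀ (l : List I) (v : Reg I → R), v zer = 0 →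
    (∀ b, runs w (copy l) v (nw' b) = v (nw' b)) ∧ runs w (copy l) v zer = 0 ∧
    ∀ b, runs w (copy l) v (od' b) = if b ∈ l then v (nw' b) else v (od' b) := by
  intro l
  induction l with
  | nil => intro v hz; exact ⟨fun _ => rfl, hz, fun b => by simp [copy, runs]⟩
  | cons a l ih =>
    intro v hz
    obtain ⟨v₁, hv₁⟩ : ∃ v₁, v₁ = Function.update v (od' a) (v (nw' a)) := ⟨_, rfl⟩
    have e : runs w (copy (a :: l)) v = runs w (copy l) v₁ := by
      have e1 : runs w (copy (a :: l)) v =
          runs w (copy l) (Function.update v (od' a) (v (nw' a) + v zer)) := rfl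
      rw [e1, hz, add_zero, hv₁]
    have hz1 : v₁ zer = 0 := by
      rw [hv₁, Function.update_of_ne (by simp [od', zer])]
      exact hz
    have hn1 : ∀ b, v₁ (nw' b) = v (nw' b) := by
      intro b
      rw [hv₁, Function.update_of_ne (by simp [od', nw'])]
    obtain ⟨k1, k2, k3⟩ := ih v₁ hz1
    rw [e]
    refine ⟨fun b => by rw [k1, hn1], k2, fun b => ?_⟩
    rw [k3]
    by_cases hb : b ∈ l
    · rw [if_pos hb, if_pos (List.mem_cons_of_mem _ hb), hn1]
    · rw [if_neg hb, hv₁]
      by_cases hba : b = a
      · rw [hba, Function.update_self, if_pos List.mem_cons_self]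
      · rw [Function.update_of_ne (by
          intro h
          exact hba (Prod.mk.inj (Sum.inl.inj h)).2), if_neg (by
          intro h
          rcases List.mem_cons.1 h with h | h
          · exact hba h
          · exact hb h)]

variable [Fintype I]

/-- the instructions for one level -/
noncomputable def level (T : I → List (List X × Option I)) : List (Instr R X (Reg I)) :=
  aprog T univ.toList ++ copy univ.toList

theorem level_run (w : X → R) (T : I → List (List X × Option I)) (v : Reg I → R)
    (hz : v zer = 0) : runs w (level T) v zer = 0 ∧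
    ∀ b, runs w (level T) v (od' b) = ((T b).map (tv w fun b => v (od' b))).sum := by
  unfold level
  rw [runs_app]
  obtain ⟨_, h2, h3⟩ := aprog_run w T univ.toList v hz
  obtain ⟨_, k2, k3⟩ := copy_run w (univ.toList : List I) _ h2
  refine ⟨k2, fun b => ?_⟩
  rw [k3, if_pos (by simp), h3, if_pos (by simp)]

/-- the instructions for the first `c` levels -/
noncomputable def levels (T : ℕ → I → List (List X × Option I)) : ℕ → List (Instr R X (Reg I))
  | 0 => []
  | c + 1 => levels T c ++ level (T c)

theorem levels_run (w : X → R) (T : ℕ → I → List (List X × Option I)) (P : ℕ → I → R)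
    (h0 : P 0 = 0) (h1 : ∀ c b, P (c + 1) b = ((T c b).map (tv w (P c))).sum) : ∀ c,
    exec w (levels T c) zer = 0 ∧ ∀ b, exec w (levels T c) (od' b) = P c b := by
  intro c
  induction c with
  | zero =>
    refine ⟨rfl, fun b => ?_⟩
    rw [h0]
    rfl
  | succ c ih =>
    obtain ⟨k1, k2⟩ := ih
    unfold exec at *
    rw [levels, runs_app]
    obtain ⟨m1, m2⟩ := level_run w (T c) _ k1
    refine ⟨m1, fun b => ?_⟩
    rw [m2, h1]
    congr 3
    funext b
    exact k2 b

theorem flatMap_length_le {α β : Type} (f : α → List β) (c : ℕ) : ∀ l : List α,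
    (∀ a ∈ l, (f a).length ≤ c) → (l.flatMap f).length ≤ l.length * c := by
  intro l
  induction l with
  | nil => intro _; simp
  | cons a l ih =>
    intro h
    rw [List.flatMap_cons, List.length_append, List.length_cons, Nat.succ_mul]
    have h1 := h a List.mem_cons_self
    have h2 := ih fun b hb => h b (List.mem_cons_of_mem _ hb)
    omega

theorem levels_length {T : ℕ → I → List (List X × Option I)} {N M : ℕ}
    (hN : ∀ c b, (T c b).length ≤ N) (hM : ∀ c b, ∀ t ∈ T c b, t.1.length ≤ M) : ∀ c,
    (levels (R := R) T c).length ≤ c * (Fintype.card I * (N * (2 * M + 2) + 3)) := by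
  intro c
  induction c with
  | zero => simp [levels]
  | succ c ih =>
    rw [levels, List.length_append, Nat.succ_mul]
    refine Nat.add_le_add ih ?_
    unfold level
    rw [List.length_append]
    have h1 : (aprog (R := R) (T c) univ.toList).length ≤
        (univ.toList : List I).length * (N * (2 * M + 2) + 2) := by
      refine flatMap_length_le _ _ _ fun a _ => ?_
      unfold vprog
      rw [List.length_cons, List.length_append]
      have h2 : (cprog (R := R) (T c a)).length ≤ (T c a).length * (2 * M + 2) := by
        refine flatMap_length_le _ _ _ fun t ht => ?_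
        rw [tprog_length]
        have := hM c a t ht
        omega
      have h3 : (T c a).length * (2 * M + 2) ≤ N * (2 * M + 2) := Nat.mul_le_mul_right _ (hN c a)
      simp only [List.length_cons, List.length_nil]
      omega
    have h4 : (copy (R := R) (X := X) (univ.toList : List I)).length =
        (univ.toList : List I).length := by
      unfold copy
      rw [List.length_map]
    rw [Finset.length_toList, card_univ] at h1 h4
    rw [h4]
    have h5 : Fintype.card I * (N * (2 * M + 2) + 3) =
        Fintype.card I * (N * (2 * M + 2) + 2) + Fintype.card I := by ring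
    omega

end Row

end Pool.Agent.TH679.LW
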