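import Pool.Agent.TH679.LW.Chain

/-!
The blocks for the colorings of a strip
-/

set_option autoImplicit false

namespace Pool.Agent.TH679.LW

open Pool.Agent.TH679.CF (Blk bt pick bt_pick map_bt_pick cv col evar Fr)
open Pool.Agent.TH679.SP (Pos lft rgt ce)

section Defs

variable (S d : ℕ)

/-- the window -/
def win (d g : ℕ) : List ℕ := List.range' g d

theorem mem_win {d g a : ℕ} : a ∈ win d g ↔ g ≤ a ∧ a < g + d := by
  unfold win
  exact List.mem_range'_1

theorem win_length (d g : ℕ) : (win d g).length = d := by simp [win]

/-- a block -/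
def mk (pops res all : List ℕ) (e : Option (ℕ × Bool)) : Blk (Pos S × Fin 2 × Fin 2) :=
  ⟨pops, res, all.toFinset, evar S d e⟩

/-- the blocks for the edges from `g, ..., g + r - 1` -/
def body : ℕ → ℕ → List (Blk (Pos S × Fin 2 × Fin 2))
  | 0, g => [mk S d (win d g) [] (win d g) none]
  | r + 1, g => mk S d (win d g) (win (d + 1) g) (win (d + 1) g) (some (g, false)) ::
      mk S d (win (d + 1) g) (win d (g + 1)) (win (d + 1) g) (some (g, true)) :: body r (g + 1)

/-- all blocks -/
def full : List (Blk (Pos S × Fin 2 × Fin 2)) :=
  mk S d [] (win d 0) (win d 0) none :: body S d S 0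

end Defs

section Lemmas

variable {S d : ℕ}

theorem fit_body : ∀ r g : ℕ, Fit (win d g) (body S d r g) := by
  intro r
  induction r with
  | zero =>
    intro g
    refine ⟨rfl, ?_, ?_, trivial⟩
    · intro a ha
      exact List.mem_toFinset.2 ha
    · intro a ha
      exact absurd ha List.not_mem_nil
  | succ r ih =>
    intro g
    refine ⟨rfl, ?_, ?_, rfl, ?_, ?_, ih (g + 1)⟩
    · intro a ha
      refine List.mem_toFinset.2 ?_
      have ha' : a ∈ win d g := ha
      rw [mem_win] at ha' ⊢
      omega
    · intro a ha
      exact List.mem_toFinset.2 ha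
    · intro a ha
      exact List.mem_toFinset.2 ha
    · intro a ha
      refine List.mem_toFinset.2 ?_
      have ha' : a ∈ win d (g + 1) := ha
      rw [mem_win] at ha' ⊢
      omega

theorem fit_full : Fit [] (full S d) := by
  refine ⟨rfl, ?_, ?_, fit_body _ _⟩
  · intro a ha
    exact absurd ha List.not_mem_nil
  · intro a ha
    exact List.mem_toFinset.2 ha

theorem fr_body : ∀ (r g : ℕ) (U : Set ℕ), U ⊆ {a | a < g + d} → Fr U (body S d r g) := by
  intro r
  induction r with
  | zero =>
    intro g U _
    refine ⟨?_, trivial⟩
    intro a ha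
    exact Or.inl (List.mem_toFinset.1 ha)
  | succ r ih =>
    intro g U hU
    have hw : ∀ a, a ∈ (win (d + 1) g).toFinset → a < g + 1 + d := by
      intro a ha
      have := (mem_win.1 (List.mem_toFinset.1 ha)).2
      omega
    refine ⟨?_, ?_, ih (g + 1) _ ?_⟩
    · intro a ha
      have ha' := mem_win.1 (List.mem_toFinset.1 ha)
      rcases Nat.lt_or_ge a (g + d) with h1 | h1
      · exact Or.inl (mem_win.2 ⟨ha'.1, h1⟩)
      · right
        intro h2
        have h3 : a < g + d := hU h2
        omega
    · intro a ha
      exact Or.inl (List.mem_toFinset.1 ha)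
    · rintro a ((h1 | h1) | h1)
      · have h2 : a < g + d := hU h1
        show a < g + 1 + d
        omega
      · exact hw a h1
      · exact hw a h1

theorem fr_full : Fr ∅ (full S d) := by
  refine ⟨fun a _ => Or.inr (Set.notMem_empty a), ?_⟩
  refine fr_body _ _ _ ?_
  rintro a (h1 | h1)
  · exact absurd h1 (Set.notMem_empty a)
  · exact (mem_win.1 (List.mem_toFinset.1 h1)).2

theorem body_length : ∀ r g : ℕ, (body S d r g).length = 2 * r + 1 := by
  intro r
  induction r with
  | zero => intro g; rfl
  | succ r ih =>
    intro g
    rw [body, List.length_cons, List.length_cons, ih]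
    ring

theorem full_length : (full S d).length = 2 * S + 2 := by
  rw [full, List.length_cons, body_length]

/-! ### the variables -/

/-- the variable of an edge for a coloring -/
def evr (S d : ℕ) (χ : ℕ → Bool) (e : ℕ × Bool) : List (Pos S × Fin 2 × Fin 2) :=
  if hS : e.1 < S then [(⟨⟨e.1, hS⟩, e.2⟩, col (χ e.1), col (χ (e.1 + if e.2 then d else 1)))]
  else []

theorem cv_mk_some (χ : ℕ → Bool) (pops res all : List ℕ) (e : ℕ × Bool) (h1 : e.1 ∈ all)
    (h2 : e.1 + (if e.2 then d else 1) ∈ all) :
    ((mk S d pops res all (some e)).var (pick χ (mk S d pops res all (some e)))).toList =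
      evr S d χ e := by
  have b1 : bt (pick χ (mk S d pops res all (some e))) e.1 = χ e.1 :=
    bt_pick χ _ (List.mem_toFinset.2 h1)
  have b2 : bt (pick χ (mk S d pops res all (some e))) (e.1 + if e.2 then d else 1) =
      χ (e.1 + if e.2 then d else 1) := bt_pick χ _ (List.mem_toFinset.2 h2)
  show (evar S d (some e) (pick χ (mk S d pops res all (some e)))).toList = _
  unfold evar evr
  rw [Option.bind_some]
  by_cases hS : e.1 < S
  · rw [dif_pos hS, dif_pos hS, b1, b2]
    rfl
  · rw [dif_neg hS, dif_neg hS]
    rfl

/-- the edges in the order of their blocks -/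
def eds : ℕ → ℕ → List (ℕ × Bool)
  | 0, _ => []
  | r + 1, g => (g, false) :: (g, true) :: eds r (g + 1)

theorem cv_body (hd : 1 ≤ d) (χ : ℕ → Bool) : ∀ r g : ℕ,
    cv (body S d r g) χ = (eds r g).flatMap (evr S d χ) := by
  intro r
  induction r with
  | zero => intro g; rfl
  | succ r ih =>
    intro g
    have hA := cv_mk_some (S := S) (d := d) χ (win d g) (win (d + 1) g) (win (d + 1) g) (g, false)
      (mem_win.2 ⟨le_rfl, by omega⟩)
      (mem_win.2 ⟨by simp, by simp; omega⟩)
    have hB := cv_mk_some (S := S) (d := d) χ (win (d + 1) g) (win d (g + 1)) (win (d + 1) g)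
      (g, true) (mem_win.2 ⟨le_rfl, by omega⟩) (mem_win.2 ⟨by simp, by simp⟩)
    show ((mk S d (win d g) (win (d + 1) g) (win (d + 1) g) (some (g, false))).var _).toList ++
      (((mk S d (win (d + 1) g) (win d (g + 1)) (win (d + 1) g) (some (g, true))).var _).toList ++
      cv (body S d r (g + 1)) χ) = _
    rw [hA, hB, ih, eds, List.flatMap_cons, List.flatMap_cons]

theorem cv_full (hd : 1 ≤ d) (χ : ℕ → Bool) :
    cv (full S d) χ = (eds S 0).flatMap (evr S d χ) := by
  show [] ++ cv (body S d S 0) χ = _
  rw [cv_body hd, List.nil_append]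

theorem count_eds (g : ℕ) (b : Bool) : ∀ r s : ℕ,
    (eds r s).count (g, b) = if s ≤ g ∧ g < s + r then 1 else 0 := by
  intro r
  induction r with
  | zero =>
    intro s
    rw [if_neg (by omega)]
    rfl
  | succ r ih =>
    intro s
    rw [eds, List.count_cons, List.count_cons, ih]
    simp only [beq_iff_eq, Prod.mk.injEq]
    cases b
    · simp only [and_true, Bool.true_eq_false, and_false, if_false, add_zero]
      split_ifs <;> omega
    · simp only [and_true, Bool.false_eq_true, and_false, if_false, add_zero]
      split_ifs <;> omega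

theorem count_flat (χ : ℕ → Bool) (e : Pos S) (α β : Fin 2) : ∀ l : List (ℕ × Bool),
    (l.flatMap (evr S d χ)).count (e, α, β) =
      if α = col (χ e.site.val) ∧ β = col (χ (e.site.val + if e.far then d else 1))
      then l.count (e.site.val, e.far) else 0 := by
  intro l
  induction l with
  | nil => simp
  | cons a l ih =>
    rw [List.flatMap_cons, List.count_append, ih, List.count_cons]
    have key : (evr S d χ a).count (e, α, β) =
        if (α = col (χ e.site.val) ∧ β = col (χ (e.site.val + if e.far then d else 1)))
        then (if a == (e.site.val, e.far) then 1 else 0) else 0 := by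
      unfold evr
      by_cases hS : a.1 < S
      · rw [dif_pos hS, List.count_singleton]
        by_cases ha : a = (e.site.val, e.far)
        · subst ha
          simp only [beq_self_eq_true, if_true]
          have h0 : (⟨⟨e.site.val, hS⟩, e.far⟩ : Pos S) = e := rfl
          rw [h0]
          simp only [beq_iff_eq, Prod.mk.injEq, true_and]
          by_cases hc : α = col (χ e.site.val) ∧
              β = col (χ (e.site.val + if e.far then d else 1))
          · rw [if_pos hc, if_pos ⟨hc.1.symm, hc.2.symm⟩]
          · rw [if_neg hc, if_neg (fun h' => hc ⟨h'.1.symm, h'.2.symm⟩)]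
        · have h1 : (a == (e.site.val, e.far)) = false := by simpa using ha
          rw [h1]
          have h2 : ¬ ((((⟨⟨a.1, hS⟩, a.2⟩ : Pos S), col (χ a.1),
              col (χ (a.1 + if a.2 then d else 1))) == (e, α, β)) = true) := by
            rw [beq_iff_eq, Prod.mk.injEq]
            rintro ⟨h3, _⟩
            apply ha
            rw [← h3]
          rw [if_neg h2]
          simp
      · rw [dif_neg hS]
        have ha : a ≠ (e.site.val, e.far) := by
          rintro rfl
          exact hS e.site.2
        have h1 : (a == (e.site.val, e.far)) = false := by simpa using ha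
        rw [h1]
        simp
    rw [key]
    by_cases hP : α = col (χ e.site.val) ∧ β = col (χ (e.site.val + if e.far then d else 1))
    · rw [if_pos hP, if_pos hP, if_pos hP]
      exact add_comm _ _
    · rw [if_neg hP, if_neg hP, if_neg hP]

end Lemmas

theorem count_cv {S d : ℕ} (hd : 1 ≤ d) (χ : ℕ → Bool) (y : Pos S × Fin 2 × Fin 2) :
    (cv (full S d) χ).count y =
      if y = ce (lft (d := d) hd) (rgt hd) (fun a => col (χ a.val)) y.1 then 1 else 0 := by
  obtain ⟨e, α, β⟩ := y
  rw [cv_full hd, count_flat, count_eds]
  have h1 : 0 ≤ e.site.val ∧ e.site.val < 0 + S := by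
    have := e.site.2
    omega
  rw [if_pos h1]
  have h2 : ((e, α, β) : Pos S × Fin 2 × Fin 2) = ce (lft (d := d) hd)
      (rgt hd) (fun a => col (χ a.val)) (e, α, β).1 ↔
      (α = col (χ e.site.val) ∧ β = col (χ (e.site.val + if e.far then d else 1))) := by
    unfold ce lft rgt
    simp only [Prod.mk.injEq, true_and]
  by_cases hc : α = col (χ e.site.val) ∧ β = col (χ (e.site.val + if e.far then d else 1))
  · rw [if_pos hc, if_pos (h2.2 hc)]
  · rw [if_neg hc, if_neg (fun h' => hc (h2.1 h'))]

/-! ### lengths -/

section Length

variable {Y : Type}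

theorem opts_length (B : Blk Y) : ∀ Os : List (Finset ℕ),
    (opts B Os).length = Os.length * (3 + B.pops.length + B.res.length) := by
  intro Os
  induction Os with
  | nil => simp [opts]
  | cons X Os ih =>
    show (optPat B X ++ opts B Os).length = _
    rw [List.length_append, ih, List.length_cons]
    have : (optPat B X).length = 3 + B.pops.length + B.res.length := by
      simp [optPat, code, bits]
      ring
    rw [this]
    ring

theorem blkPat_length (B : Blk Y) :
    (blkPat B).length = 1 + 2 ^ B.all.card * (3 + B.pops.length + B.res.length) := by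
  show (opts B B.all.powerset.toList).length + 1 = _
  rw [opts_length, Finset.length_toList, Finset.card_powerset]
  ring

theorem two_length_le (c : ℕ) : ∀ (Bs : List (Blk Y)), (∀ B ∈ Bs, (blkPat B).length ≤ c) →
    (two Bs).1.length + (two Bs).2.length ≤ Bs.length * c := by
  intro Bs
  induction Bs with
  | nil => intro _; simp [two]
  | cons B Bs ih =>
    intro hc
    have h1 := ih fun B' hB' => hc B' (List.mem_cons_of_mem _ hB')
    have h2 := hc B List.mem_cons_self
    show (blkPat B ++ (two Bs).2).length + (two Bs).1.length ≤ _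
    rw [List.length_append, List.length_cons, Nat.succ_mul]
    omega

end Length

theorem mk_len {S d : ℕ} (pops res all : List ℕ) (e : Option (ℕ × Bool))
    (h1 : all.length ≤ d + 1) (h2 : pops.length + res.length ≤ 2 * d + 1) :
    (blkPat (mk S d pops res all e)).length ≤ 1 + 2 ^ (d + 1) * (2 * d + 4) := by
  rw [blkPat_length]
  have h3 : (mk S d pops res all e).all.card ≤ d + 1 := (List.toFinset_card_le all).trans h1
  refine Nat.add_le_add_left (Nat.mul_le_mul (Nat.pow_le_pow_right (by norm_num) h3) ?_) _
  show 3 + pops.length + res.length ≤ _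
  omega

theorem body_len {S d : ℕ} : ∀ r g : ℕ, ∀ B ∈ body S d r g,
    (blkPat B).length ≤ 1 + 2 ^ (d + 1) * (2 * d + 4) := by
  intro r
  induction r with
  | zero =>
    intro g B hB
    simp only [body, List.mem_cons, List.not_mem_nil, or_false] at hB
    subst hB
    refine mk_len _ _ _ _ ?_ ?_
    · rw [win_length]; omega
    · rw [win_length]; simp; omega
  | succ r ih =>
    intro g B hB
    simp only [body, List.mem_cons] at hB
    rcases hB with rfl | rfl | hB
    · refine mk_len _ _ _ _ ?_ ?_
      · rw [win_length]
      · rw [win_length, win_length]; omega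
    · refine mk_len _ _ _ _ ?_ ?_
      · rw [win_length]
      · rw [win_length, win_length]; omega
    · exact ih (g + 1) B hB

theorem two_full_le (S d : ℕ) : (two (full S d)).1.length + (two (full S d)).2.length ≤
    (2 * S + 2) * (1 + 2 ^ (d + 1) * (2 * d + 4)) := by
  have h3 := two_length_le (1 + 2 ^ (d + 1) * (2 * d + 4)) (full S d) (by
    intro B hB
    simp only [full, List.mem_cons] at hB
    rcases hB with rfl | hB
    · refine mk_len _ _ _ _ ?_ ?_
      · rw [win_length]; omega
      · rw [win_length]; simp; omega
    · exact body_len _ _ B hB)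
  rwa [full_length] at h3

end Pool.Agent.TH679.LW
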